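import Pool.Agent.Y733.VR.Disc

/-!
Extensions of a number field by square roots of integers.
-/

set_option autoImplicit false

open NumberField Module IntermediateField Polynomial

namespace Pool.Agent.Helper892.VE

open Pool.Agent.Y733.VR

lemma norm_tower (K L : Type) [Field K] [NumberField K] [Field L] [NumberField L] [Algebra K L]
    (x : K) : Algebra.norm ℚ (algebraMap K L x) = Algebra.norm ℚ x ^ finrank K L := by
  rw [← Algebra.norm_norm (S := K), Algebra.norm_algebraMap, map_pow]

/-- the discriminant of `K(√A)` -/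
lemma ld_sqrt (K L : Type) [Field K] [NumberField K] [Field L] [NumberField L] [Algebra K L]
    (A : 𝓞 K) (hA : A ≠ 0) (β : L) (hβ : K⟮β⟯ = ⊤) (h : β ^ 2 = algebraMap K L A) :
    ld L ≤ ld K + Real.log 2 + Real.log |(Algebra.norm ℚ (A : K) : ℝ)| / finrank ℚ K / 2 := by
  have hint : IsIntegral ℤ β := by
    refine IsIntegral.of_pow (n := 2) (by norm_num) ?_
    rw [h]
    exact (RingOfIntegers.isIntegral_coe A).algebraMap
  set γ : 𝓞 L := ⟨β, hint⟩ with hγ
  have hγβ : (γ : L) = β := rfl
  have hA0 : (A : K) ≠ 0 := RingOfIntegers.coe_ne_zero_iff.2 hA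
  have hβ0 : β ≠ 0 := by
    rintro rfl
    rw [zero_pow (by norm_num)] at h
    exact hA0 ((map_eq_zero _).1 h.symm)
  have hder : aeval γ (derivative (X ^ 2 - C A)) = 2 * γ := by
    rw [derivative_sub, derivative_X_pow, derivative_C, sub_zero]
    simp only [Nat.cast_ofNat, map_mul, map_pow, aeval_X, Nat.add_one_sub_one, pow_one, aeval_C,
      map_ofNat]
  have h1 := ld_le K L γ (by rw [hγβ]; exact hβ) (X ^ 2 - C A) (by
    rw [map_sub, map_pow, aeval_X, aeval_C, sub_eq_zero]
    apply RingOfIntegers.ext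
    change algebraMap (𝓞 L) L (γ ^ 2) = algebraMap K L (algebraMap (𝓞 K) K A)
    rw [map_pow]
    exact h) (by
    rw [hder]
    intro h2
    have h3 : γ = 0 := (mul_eq_zero.1 h2).resolve_left two_ne_zero
    exact hβ0 (by rw [← hγβ, h3]; rfl))
  refine h1.trans ?_
  rw [add_assoc, add_le_add_iff_left]
  have hLpos : (0 : ℝ) < finrank ℚ L := by exact_mod_cast finrank_pos
  have hKpos : (0 : ℝ) < finrank ℚ K := by exact_mod_cast finrank_pos
  have hKL : (0 : ℝ) < finrank K L := by exact_mod_cast finrank_pos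
  have e1 : ((aeval γ (derivative (X ^ 2 - C A)) : 𝓞 L) : L) = 2 * β := by
    rw [hder]
    change algebraMap (𝓞 L) L (2 * γ) = 2 * β
    rw [map_mul, map_ofNat]
    exact congrArg _ hγβ
  rw [e1, map_mul]
  have e2 : Algebra.norm ℚ (2 : L) = 2 ^ finrank ℚ L := by
    have := Algebra.norm_algebraMap (R := ℚ) (S := L) 2
    rwa [map_ofNat] at this
  have e3 : Algebra.norm ℚ β ^ 2 = Algebra.norm ℚ (A : K) ^ finrank K L := by
    rw [← map_pow, h, norm_tower]
  have hN0 : Algebra.norm ℚ (A : K) ≠ 0 := by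
    rw [Algebra.norm_ne_zero_iff]
    exact hA0
  have hNβ0 : Algebra.norm ℚ β ≠ 0 := by
    rw [Algebra.norm_ne_zero_iff]
    exact hβ0
  have e4 : 2 * Real.log |(Algebra.norm ℚ β : ℝ)| =
      finrank K L * Real.log |(Algebra.norm ℚ (A : K) : ℝ)| := by
    have e5 : (Algebra.norm ℚ β : ℝ) ^ 2 = (Algebra.norm ℚ (A : K) : ℝ) ^ finrank K L := by
      exact_mod_cast e3
    have e6 := congrArg (fun z : ℝ => Real.log |z|) e5
    simp only [abs_pow, Real.log_pow] at e6
    exact_mod_cast e6
  rw [e2]
  push_cast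
  rw [abs_mul, abs_pow, abs_of_pos (by norm_num : (0 : ℝ) < 2), Real.log_mul (by positivity)
    (by
      rw [abs_ne_zero]
      exact_mod_cast hNβ0), Real.log_pow, add_div, mul_comm (finrank ℚ L : ℝ),
    mul_div_assoc, div_self hLpos.ne', mul_one, add_le_add_iff_left]
  have e7 : Real.log |(Algebra.norm ℚ β : ℝ)| =
      finrank K L * Real.log |(Algebra.norm ℚ (A : K) : ℝ)| / 2 := by linarith
  rw [e7, finrank_tower K L]
  apply le_of_eq
  field_simp

/-- the logarithmic discriminant relative to `k` -/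
noncomputable def lD (k L : Type) [Field k] [NumberField k] [Field L] [NumberField L]
    [Algebra k L] : ℝ :=
  Real.log |(discr L : ℝ)| / finrank k L - Real.log |(discr k : ℝ)|

lemma lD_eq (k L : Type) [Field k] [NumberField k] [Field L] [NumberField L]
    [Algebra k L] : lD k L = finrank ℚ k * (ld L - ld k) := by
  have hkpos : (0 : ℝ) < finrank ℚ k := by exact_mod_cast finrank_pos
  have hkL : (0 : ℝ) < finrank k L := by exact_mod_cast finrank_pos
  unfold lD ld
  rw [finrank_tower k L]
  field_simp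

variable (k : Type) [Field k] [NumberField k]

/-- the field generated by the square roots of two integers -/
theorem exists_field (A B : 𝓞 k) (hA : A ≠ 0) (hB : B ≠ 0) :
    ∃ (L : Type) (_ : Field L) (_ : NumberField L) (_ : Algebra k L) (α β : L),
      α ^ 2 = algebraMap k L A ∧ β ^ 2 = algebraMap k L B ∧ k⟮α, β⟯ = ⊤ ∧
      finrank k L ≤ 4 ∧ (A = 1 → finrank k L ≤ 2) ∧
      lD k L ≤ 2 * finrank ℚ k * Real.log 2 +
        (Real.log |(Algebra.norm ℚ (A : k) : ℝ)| + Real.log |(Algebra.norm ℚ (B : k) : ℝ)|) / 2 := by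
  obtain ⟨a, ha⟩ := IsAlgClosed.exists_pow_nat_eq (algebraMap k (AlgebraicClosure k) A)
    (n := 2) (by norm_num)
  obtain ⟨b, hb⟩ := IsAlgClosed.exists_pow_nat_eq (algebraMap k (AlgebraicClosure k) B)
    (n := 2) (by norm_num)
  have hia : IsIntegral k a := Algebra.IsIntegral.isIntegral a
  have hib : IsIntegral k b := Algebra.IsIntegral.isIntegral b
  set L0 : IntermediateField k (AlgebraicClosure k) := k⟮a, b⟯ with hL0
  have : FiniteDimensional k L0 := by
    apply IntermediateField.finiteDimensional_adjoin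
    intro x hx
    simp only [Set.mem_insert_iff, Set.mem_singleton_iff] at hx
    rcases hx with rfl | rfl
    · exact hia
    · exact hib
  have : NumberField L0 := NumberField.of_module_finite k L0
  have haL : a ∈ L0 := subset_adjoin k _ (by simp)
  have hbL : b ∈ L0 := subset_adjoin k _ (by simp)
  set α : L0 := ⟨a, haL⟩ with hα
  set β : L0 := ⟨b, hbL⟩ with hβ
  have hα2 : α ^ 2 = algebraMap k L0 A := Subtype.ext ha
  have hβ2 : β ^ 2 = algebraMap k L0 B := Subtype.ext hb
  have htop : k⟮α, β⟯ = ⊤ := by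
    have h1 : IntermediateField.map L0.val k⟮α, β⟯ = L0 := by
      rw [adjoin_map]
      have : (L0.val : L0 → AlgebraicClosure k) '' {α, β} = {a, b} := by
        rw [Set.image_insert_eq, Set.image_singleton]
        rfl
      rw [this]
    have h2 : IntermediateField.map L0.val (⊤ : IntermediateField k L0) = L0 := by
      rw [← AlgHom.fieldRange_eq_map, fieldRange_val]
    exact IntermediateField.map_injective L0.val (h1.trans h2.symm)
  set K1 : IntermediateField k L0 := k⟮α⟯ with hK1
  have : NumberField K1 := NumberField.of_module_finite k K1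
  have hdeg : ∀ (F E : Type) [Field F] [Field E] [Algebra F E] (x : E) (y : F),
      x ^ 2 = algebraMap F E y → finrank F F⟮x⟯ ≤ 2 := by
    intro F E _ _ _ x y hxy
    have hroot : aeval x (X ^ 2 - C y) = 0 := by
      rw [map_sub, map_pow, aeval_X, aeval_C, hxy, sub_self]
    have hmon : (X ^ 2 - C y).Monic := monic_X_pow_sub_C y (by norm_num)
    have hx : IsIntegral F x := ⟨X ^ 2 - C y, hmon, by rwa [← aeval_def]⟩
    rw [adjoin.finrank hx]
    refine (natDegree_le_of_dvd (minpoly.dvd F x hroot) hmon.ne_zero).trans ?_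
    rw [natDegree_X_pow_sub_C]
  have d1 : finrank k K1 ≤ 2 := hdeg k L0 α A hα2
  set A1 : K1 := ⟨α, mem_adjoin_simple_self k α⟩ with hA1
  have hA1' : A1 ^ 2 = algebraMap k K1 A := Subtype.ext hα2
  have hB1 : β ^ 2 = algebraMap K1 L0 (algebraMap k K1 B) := by
    rw [hβ2]
    rfl
  have htop2 : K1⟮β⟯ = ⊤ := by
    apply IntermediateField.restrictScalars_injective k
    rw [hK1, adjoin_simple_adjoin_simple, htop]
    rfl
  have d2 : finrank K1 L0 ≤ 2 := by
    have h := hdeg K1 L0 β _ hB1
    rw [htop2] at h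
    rwa [IntermediateField.finrank_top'] at h
  have d3 : finrank k K1 * finrank K1 L0 = finrank k L0 := finrank_mul_finrank k K1 L0
  have htop1 : k⟮A1⟯ = ⊤ := by
    have h1 : IntermediateField.map K1.val k⟮A1⟯ = K1 := by
      rw [adjoin_map, Set.image_singleton]
      rfl
    have h2 : IntermediateField.map K1.val (⊤ : IntermediateField k K1) = K1 := by
      rw [← AlgHom.fieldRange_eq_map, fieldRange_val]
    exact IntermediateField.map_injective K1.val (h1.trans h2.symm)
  have b1 := ld_sqrt k K1 A hA A1 htop1 hA1'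
  set B' : 𝓞 K1 := algebraMap (𝓞 k) (𝓞 K1) B with hB'
  have hB'c : (B' : K1) = algebraMap k K1 (B : k) := rfl
  have hB'0 : B' ≠ 0 := by
    intro h
    have h' : (B' : K1) = 0 := by rw [h]; rfl
    rw [hB'c] at h'
    exact (RingOfIntegers.coe_ne_zero_iff.2 hB) ((map_eq_zero _).1 h')
  have b2 := ld_sqrt K1 L0 B' hB'0 β htop2 (by rw [hB'c]; exact hB1)
  rw [hB'c, norm_tower] at b2
  push_cast at b2
  rw [abs_pow, Real.log_pow] at b2
  refine ⟨L0, inferInstance, inferInstance, inferInstance, α, β, hα2, hβ2, htop, ?_, ?_, ?_⟩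
  · rw [← d3]
    nlinarith [Nat.zero_le (finrank k K1), Nat.zero_le (finrank K1 L0)]
  · intro h1
    have h2 : finrank k K1 = 1 := by
      rw [hK1, IntermediateField.finrank_adjoin_simple_eq_one_iff]
      have h3 : α ^ 2 = 1 := by
        rw [hα2, h1]
        simp
      have h4 : (α - 1) * (α + 1) = 0 := by linear_combination h3
      rcases mul_eq_zero.1 h4 with h5 | h5
      · rw [sub_eq_zero.1 h5]; exact one_mem _
      · rw [eq_neg_of_add_eq_zero_left h5]; exact neg_mem (one_mem _)
    rw [← d3, h2, one_mul]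
    exact d2
  · rw [lD_eq]
    have hkpos : (0 : ℝ) < finrank ℚ k := by exact_mod_cast finrank_pos
    have hk1pos : (0 : ℝ) < finrank k K1 := by exact_mod_cast finrank_pos
    rw [finrank_tower k K1] at b2
    have e1 : (finrank k K1 : ℝ) * Real.log |(Algebra.norm ℚ (B : k) : ℝ)| /
        (finrank ℚ k * finrank k K1) = Real.log |(Algebra.norm ℚ (B : k) : ℝ)| / finrank ℚ k := by
      field_simp
    rw [e1] at b2
    have e2 : ld L0 - ld k ≤ 2 * Real.log 2 +
        (Real.log |(Algebra.norm ℚ (A : k) : ℝ)| / finrank ℚ k +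
          Real.log |(Algebra.norm ℚ (B : k) : ℝ)| / finrank ℚ k) / 2 := by linarith
    refine (mul_le_mul_of_nonneg_left e2 hkpos.le).trans (le_of_eq ?_)
    field_simp

end Pool.Agent.Helper892.VE
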