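import Pool.Agent.R405.Rep

/-!
Values of polynomials, up to squares, as integers of bounded norm.
-/

set_option autoImplicit false

open NumberField Module Polynomial Height

namespace Pool.Agent.Helper892.VE

variable (k : Type) [Field k] [NumberField k]

variable {k} in
lemma ne_of_coe {A : 𝓞 k} (h : (A : k) ≠ 0) : A ≠ 0 := fun h0 => h (by rw [h0]; rfl)

/-- the archimedean part of the height of `(p : q)` -/
noncomputable def arch {k : Type} [Field k] [NumberField k] (p q : 𝓞 k) : ℝ :=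
  ∏ v : InfinitePlace k, (⨆ i, v ((![p, q] i : 𝓞 k) : k)) ^ v.mult

/-- fractions with bounded content -/
theorem exists_frac : ∃ C : ℝ, 1 ≤ C ∧ ∀ x : k, ∃ p q : 𝓞 k, q ≠ 0 ∧ x * q = p ∧
    arch p q ≤ C * mulHeight₁ x := by
  obtain ⟨C, hC, h⟩ := Pool.Agent.R405.exists_rep k
  refine ⟨C, hC, fun x => ?_⟩
  have hx : (![x, 1] : Fin 2 → k) ≠ 0 := fun h => by simpa using congrFun h 1
  obtain ⟨lam, y, hlam, hy, -, hcont⟩ := h 2 ![x, 1] hx
  have h0 : (y 0 : k) = lam * x := by simpa using hy 0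
  have h1 : (y 1 : k) = lam := by simpa using hy 1
  have hq : y 1 ≠ 0 := by
    intro h2
    rw [h2] at h1
    exact hlam h1.symm
  refine ⟨y 0, y 1, hq, by rw [h0, h1, mul_comm], ?_⟩
  have hy0 : y ≠ 0 := fun h2 => hq (congrFun h2 1)
  have e1 := Pool.Agent.R405.mulHeight_int y hy0
  have e2 : (fun j => ((y j : 𝓞 k) : k)) = lam • ![x, 1] := by
    funext j
    rw [hy j]
    rfl
  rw [e2, mulHeight_smul_eq_mulHeight _ hlam, ← mulHeight₁_eq_mulHeight] at e1
  have e3 : arch (y 0) (y 1) = ∏ v : InfinitePlace k, (⨆ i, v (y i : k)) ^ v.mult := by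
    unfold arch
    refine Finset.prod_congr rfl fun v _ => ?_
    congr 2
    funext i
    fin_cases i <;> rfl
  rw [e3, ← e1, mul_comm]
  exact mul_le_mul_of_nonneg_right hcont (mulHeight₁_pos x).le

/-- the value of the binary form of degree `e` attached to `Φ` -/
noncomputable def frm {k : Type} [Field k] [NumberField k] (Φ : (𝓞 k)[X]) (e : ℕ) (p q : 𝓞 k) :
    𝓞 k :=
  ∑ i ∈ Finset.range (e + 1), Φ.coeff i * p ^ i * q ^ (e - i)

lemma frm_eq {Φ : (𝓞 k)[X]} {e : ℕ} (he : Φ.natDegree ≤ e) {p q : 𝓞 k} {x : k} (hx : x * q = p) :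
    ((frm Φ e p q : 𝓞 k) : k) = q ^ e * aeval x Φ := by
  unfold frm
  rw [aeval_eq_sum_range' (Nat.lt_succ_of_le he), Finset.mul_sum]
  change algebraMap (𝓞 k) k _ = _
  rw [map_sum]
  refine Finset.sum_congr rfl fun i hi => ?_
  have hi' : i ≤ e := by
    rw [Finset.mem_range] at hi
    omega
  rw [map_mul, map_mul, map_pow, map_pow, Algebra.smul_def]
  change algebraMap (𝓞 k) k _ * (p : k) ^ i * (q : k) ^ (e - i) = _
  rw [← hx, mul_pow]
  have : (q : k) ^ e = (q : k) ^ i * (q : k) ^ (e - i) := by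
    rw [← pow_add]
    congr 1
    omega
  rw [this]
  ring

/-- the norm of the value of a form -/
theorem norm_frm (Φ : (𝓞 k)[X]) (e : ℕ) : ∃ C : ℝ, 0 ≤ C ∧ ∀ p q : 𝓞 k,
    |(Algebra.norm ℚ ((frm Φ e p q : 𝓞 k) : k) : ℝ)| ≤ C * arch p q ^ e := by
  refine ⟨∏ v : InfinitePlace k, (∑ i ∈ Finset.range (e + 1), v (Φ.coeff i : k)) ^ v.mult,
    Finset.prod_nonneg fun v _ => pow_nonneg (Finset.sum_nonneg fun i _ => apply_nonneg v _) _,
    fun p q => ?_⟩
  have h1 := InfinitePlace.prod_eq_abs_norm ((frm Φ e p q : 𝓞 k) : k)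
  have h2 : |(Algebra.norm ℚ ((frm Φ e p q : 𝓞 k) : k) : ℝ)| =
      ∏ v : InfinitePlace k, v ((frm Φ e p q : 𝓞 k) : k) ^ v.mult := by
    rw [h1]
    push_cast
    rfl
  rw [h2, arch, ← Finset.prod_pow, ← Finset.prod_mul_distrib]
  refine Finset.prod_le_prod (fun v _ => pow_nonneg (apply_nonneg v _) _) fun v _ => ?_
  rw [← pow_mul, mul_comm v.mult e, pow_mul, ← mul_pow]
  refine pow_le_pow_left₀ (apply_nonneg v _) ?_ _
  set M : ℝ := ⨆ i, v ((![p, q] i : 𝓞 k) : k) with hM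
  have hbdd : BddAbove (Set.range fun i => v ((![p, q] i : 𝓞 k) : k)) := (Set.finite_range _).bddAbove
  have hp : v (p : k) ≤ M := le_ciSup (f := fun i => v ((![p, q] i : 𝓞 k) : k)) hbdd 0
  have hq : v (q : k) ≤ M := le_ciSup (f := fun i => v ((![p, q] i : 𝓞 k) : k)) hbdd 1
  have hM0 : 0 ≤ M := (apply_nonneg v _).trans hp
  have e1 : ((frm Φ e p q : 𝓞 k) : k) =
      ∑ i ∈ Finset.range (e + 1), (Φ.coeff i : k) * (p : k) ^ i * (q : k) ^ (e - i) := by
    unfold frm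
    change algebraMap (𝓞 k) k _ = _
    rw [map_sum]
    refine Finset.sum_congr rfl fun i _ => ?_
    rw [map_mul, map_mul, map_pow, map_pow]
  rw [e1, Finset.sum_mul]
  have h3 : v (∑ i ∈ Finset.range (e + 1), (Φ.coeff i : k) * (p : k) ^ i * (q : k) ^ (e - i)) ≤
      ∑ i ∈ Finset.range (e + 1), v ((Φ.coeff i : k) * (p : k) ^ i * (q : k) ^ (e - i)) :=
    v.1.sum_le _ _
  refine h3.trans (Finset.sum_le_sum fun i hi => ?_)
  have hi' : i ≤ e := by
    rw [Finset.mem_range] at hi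
    omega
  rw [map_mul, map_mul, map_pow, map_pow, mul_assoc]
  refine mul_le_mul_of_nonneg_left ?_ (apply_nonneg v _)
  have : M ^ e = M ^ i * M ^ (e - i) := by
    rw [← pow_add]
    congr 1
    omega
  rw [this]
  exact mul_le_mul (pow_le_pow_left₀ (apply_nonneg v _) hp _)
    (pow_le_pow_left₀ (apply_nonneg v _) hq _) (pow_nonneg (apply_nonneg v _) _)
    (pow_nonneg hM0 _)

/-- the norm of the value of a form, in terms of the height -/
theorem log_norm_frm (Φ : (𝓞 k)[X]) (e : ℕ) : ∃ C : ℝ, ∀ (x : k) (p q : 𝓞 k),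
    arch p q ≤ (exists_frac k).choose * mulHeight₁ x → frm Φ e p q ≠ 0 →
    Real.log |(Algebra.norm ℚ ((frm Φ e p q : 𝓞 k) : k) : ℝ)| ≤ e * logHeight₁ x + C := by
  obtain ⟨C, hC, h⟩ := norm_frm k Φ e
  set D : ℝ := (exists_frac k).choose with hD
  have hD1 : 1 ≤ D := (exists_frac k).choose_spec.1
  refine ⟨Real.log (C + 1) + e * Real.log D, fun x p q hpq h0 => ?_⟩
  have hne : 0 < |(Algebra.norm ℚ ((frm Φ e p q : 𝓞 k) : k) : ℝ)| := by
    rw [abs_pos]
    have : Algebra.norm ℚ ((frm Φ e p q : 𝓞 k) : k) ≠ 0 := by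
      rw [Algebra.norm_ne_zero_iff]
      exact RingOfIntegers.coe_ne_zero_iff.2 h0
    exact_mod_cast this
  have harch : 0 ≤ arch p q := Finset.prod_nonneg fun v _ => pow_nonneg
    (Real.iSup_nonneg fun i => apply_nonneg v _) _
  have h1 : |(Algebra.norm ℚ ((frm Φ e p q : 𝓞 k) : k) : ℝ)| ≤
      (C + 1) * (D * mulHeight₁ x) ^ e := by
    refine (h p q).trans (mul_le_mul (by linarith) (pow_le_pow_left₀ harch hpq _)
      (pow_nonneg harch _) (by linarith))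
  have h2 := Real.log_le_log hne h1
  rw [Real.log_mul (by positivity) (by have := mulHeight₁_pos x; positivity), Real.log_pow,
    Real.log_mul (by positivity) (mulHeight₁_ne_zero x)] at h2
  rw [logHeight₁_eq_log_mulHeight₁]
  linarith

/-- the values of a polynomial, up to squares -/
theorem exists_int (Φ : (𝓞 k)[X]) (e : ℕ) (he : Φ.natDegree ≤ 2 * e) : ∃ C : ℝ, ∀ x : k,
    aeval x Φ ≠ 0 → ∃ (A : 𝓞 k) (s : k), s ≠ 0 ∧ A ≠ 0 ∧ (A : k) = s ^ 2 * aeval x Φ ∧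
      Real.log |(Algebra.norm ℚ (A : k) : ℝ)| ≤ 2 * e * logHeight₁ x + C := by
  obtain ⟨C, hC⟩ := log_norm_frm k Φ (2 * e)
  refine ⟨C, fun x hx => ?_⟩
  obtain ⟨p, q, hq, hpq, harch⟩ := (exists_frac k).choose_spec.2 x
  have hqk : (q : k) ≠ 0 := RingOfIntegers.coe_ne_zero_iff.2 hq
  have e1 := frm_eq k he hpq
  have e2 : frm Φ (2 * e) p q ≠ 0 := by
    apply ne_of_coe
    rw [e1]
    exact mul_ne_zero (pow_ne_zero _ hqk) hx
  refine ⟨frm Φ (2 * e) p q, (q : k) ^ e, pow_ne_zero _ hqk, e2, ?_, ?_⟩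
  · rw [e1, ← pow_mul, mul_comm e 2]
  · have := hC x p q harch e2
    push_cast at this
    exact this

/-- the ordinate of a point of `y² = Φ(x)`, `deg Φ ≤ 4`, up to squares -/
theorem exists_int_sqrt (Φ : (𝓞 k)[X]) (he : Φ.natDegree ≤ 4) : ∃ C : ℝ, ∀ x y : k,
    y ^ 2 = aeval x Φ → y ≠ 0 → ∃ (A : 𝓞 k) (s : k), s ≠ 0 ∧ A ≠ 0 ∧ (A : k) = s ^ 2 * y ∧
      Real.log |(Algebra.norm ℚ (A : k) : ℝ)| ≤ 2 * logHeight₁ x + C := by
  obtain ⟨C, hC⟩ := log_norm_frm k Φ 4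
  refine ⟨C / 2, fun x y hxy hy => ?_⟩
  obtain ⟨p, q, hq, hpq, harch⟩ := (exists_frac k).choose_spec.2 x
  have hqk : (q : k) ≠ 0 := RingOfIntegers.coe_ne_zero_iff.2 hq
  have e1 := frm_eq k he hpq
  have e3 : ((frm Φ 4 p q : 𝓞 k) : k) = ((q : k) ^ 2 * y) ^ 2 := by
    rw [e1, ← hxy]
    ring
  have e2 : frm Φ 4 p q ≠ 0 := by
    apply ne_of_coe
    rw [e3]
    exact pow_ne_zero _ (mul_ne_zero (pow_ne_zero _ hqk) hy)
  have hint : IsIntegral ℤ ((q : k) ^ 2 * y) := by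
    refine IsIntegral.of_pow (n := 2) (by norm_num) ?_
    rw [← e3]
    exact RingOfIntegers.isIntegral_coe _
  set A : 𝓞 k := ⟨(q : k) ^ 2 * y, hint⟩ with hA
  have hA' : (A : k) = (q : k) ^ 2 * y := rfl
  refine ⟨A, (q : k), hqk, ?_, hA', ?_⟩
  · apply ne_of_coe
    rw [hA']
    exact mul_ne_zero (pow_ne_zero _ hqk) hy
  · have h1 := hC x p q harch e2
    rw [e3, map_pow] at h1
    push_cast at h1
    rw [abs_pow, Real.log_pow] at h1
    push_cast at h1
    rw [hA']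
    linarith

end Pool.Agent.Helper892.VE
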