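import Pool.Agent.Helper892.VE.Newton2
import Pool.Agent.Helper259.HtExt

/-!
Quadratic points of `y² = F(x₁) F(x₂)`, `F = f g`.
-/

set_option autoImplicit false

open NumberField Module Polynomial Height IntermediateField

namespace Pool.Agent.Helper892.VE

open Pool.Agent.Y720.MZ

section sq

variable {K : Type} [Field K] [CharZero K]

lemma ff_it {a b c x : K} (n : ℕ) (hg : Good a b c x (n + 1)) :
    ∃ s : K, s ≠ 0 ∧ ff a b c (it a b c x n) = ff a b c x * s ^ 2 := by
  have key : ∀ j ≤ n, ∃ s : K, s ≠ 0 ∧ ff a b c (it a b c x j) = ff a b c x * s ^ 2 := by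
    intro j
    induction j with
    | zero => intro _; exact ⟨1, one_ne_zero, by simp [it]⟩
    | succ j ih =>
      intro hj
      obtain ⟨s, hs, e⟩ := ih (by omega)
      have h1 := hg j (by omega)
      have h2 := hg (j + 1) (by omega)
      have e1 := ff_dd a b c (it a b c x j) h1
      have e2 : it a b c x (j + 1) = dd a b c (it a b c x j) := rfl
      have hf : ff a b c (it a b c x j) ≠ 0 := by
        intro h0
        apply h1
        rw [dD_eq, h0, mul_zero]
      have hf2 : ff a b c (it a b c x (j + 1)) ≠ 0 := by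
        intro h0
        apply h2
        rw [dD_eq, h0, mul_zero]
      have hw : ww a b c (it a b c x j) ≠ 0 := by
        intro h0
        rw [h0, zero_pow (by norm_num), ← e2] at e1
        exact mul_ne_zero hf2 (pow_ne_zero 3 h1) e1
      refine ⟨s * (ww a b c (it a b c x j) / (8 * ff a b c (it a b c x j) ^ 2)),
        mul_ne_zero hs (div_ne_zero hw (mul_ne_zero (by norm_num) (pow_ne_zero 2 hf))), ?_⟩
      rw [mul_pow, ← mul_assoc, ← e, e2]
      rw [dD_eq] at e1
      have h8 : (4 * ff a b c (it a b c x j)) ^ 3 ≠ 0 :=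
        pow_ne_zero _ (mul_ne_zero (by norm_num) hf)
      have e3 : ff a b c (dd a b c (it a b c x j)) =
          ww a b c (it a b c x j) ^ 2 / (4 * ff a b c (it a b c x j)) ^ 3 := by
        rw [← e1, mul_div_assoc, div_self h8, mul_one]
      rw [e3]
      field_simp
      ring
  exact key n le_rfl

end sq

variable {k : Type} [Field k] [NumberField k]

lemma finite_roots_it {a b c : k} (hD : dsc a b c ≠ 0) (n : ℕ) (g : (𝓞 k)[X]) (hg : g ≠ 0) :
    {x : k | Good a b c x n ∧ aeval (it a b c x n) g = 0}.Finite := by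
  classical
  have hgmap : g.map (algebraMap (𝓞 k) k) ≠ 0 := by
    intro h
    exact hg ((Polynomial.map_eq_zero_iff (IsFractionRing.injective (𝓞 k) k)).1 h)
  have hroots : {x : k | aeval x g = 0}.Finite := by
    refine ((g.map (algebraMap (𝓞 k) k)).roots.toFinset.finite_toSet).subset ?_
    intro x hx
    rw [Finset.mem_coe, Multiset.mem_toFinset, mem_roots hgmap, IsRoot.def, eval_map_algebraMap]
    exact hx
  obtain ⟨M, hM⟩ := (hroots.image logHeight₁).bddAbove
  obtain ⟨B, hB, hit⟩ := it_height hD n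
  refine (NumberField.finite_setOfPred_logHeight₁_le k (M + B)).subset ?_
  rintro x ⟨h1, h2⟩
  have h3 := hit x h1 n le_rfl
  have h4 : logHeight₁ (it a b c x n) ≤ M := hM ⟨_, h2, rfl⟩
  have h5 : (1 : ℝ) ≤ 4 ^ n := one_le_pow₀ (by norm_num)
  have h6 : (0 : ℝ) ≤ logHeight₁ x := zero_le_logHeight₁ x
  rw [abs_le] at h3
  show logHeight₁ x ≤ M + B
  nlinarith [h3.1]

/-- the height, relative to `k`, of the point `x` of the line -/
noncomputable def lH (k : Type) {L : Type} [Field k] [NumberField k] [Field L] [NumberField L]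
    [Algebra k L] (x : L) : ℝ := logHeight₁ x / finrank k L

lemma lH_eq (L : Type) [Field L] [NumberField L] [Algebra k L] (x : k) :
    lH k (algebraMap k L x) = logHeight₁ x := by
  have hkL : (0 : ℝ) < finrank k L := by exact_mod_cast finrank_pos
  have h1 := Pool.Agent.Helper259.HtExt.logHeight_ext (L := L) ![x, 1]
  have h2 : (fun i => algebraMap k L (![x, 1] i)) = ![algebraMap k L x, 1] := by
    funext i
    fin_cases i <;> simp
  rw [h2, ← logHeight₁_eq_logHeight x, ← logHeight₁_eq_logHeight] at h1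
  unfold lH
  rw [h1]
  field_simp

/-- the points over `(x, D^n x)` -/
theorem exists_qpoint (a b c : 𝓞 k) (hD : dsc (a : k) b c ≠ 0) (n : ℕ) (g : (𝓞 k)[X]) (m : ℕ)
    (hm : 1 ≤ m) (hg : g.natDegree = 2 * m)
    (hsep : IsCoprime (g.map (algebraMap (𝓞 k) k)) (derivative (g.map (algebraMap (𝓞 k) k)))) :
    ∃ C₀ : ℝ, {x : k | Good (a : k) b c x (n + 1) ∧
      ∃ (L : Type) (_ : Field L) (_ : NumberField L) (_ : Algebra k L) (y : L), y ≠ 0 ∧
      y ^ 2 = algebraMap k L ((ff (a : k) b c x * aeval x g) *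
        (ff (a : k) b c (it (a : k) b c x n) * aeval (it (a : k) b c x n) g)) ∧
      k⟮y⟯ = ⊤ ∧ finrank k L ≤ 2 ∧
      lD k L ≤ (m - 1) * logHeight₁ x + m * logHeight₁ (it (a : k) b c x n) + C₀}.Infinite := by
  have hg0 : g ≠ 0 := by
    rintro rfl
    simp at hg
    omega
  obtain ⟨C1, h1⟩ := newton_pts g m hm hg hsep
  obtain ⟨C2, h2⟩ := exists_int k g m hg.le
  refine ⟨2 * finrank ℚ k * Real.log 2 + (C1 + C2) / 2, fun hfin => h1 ?_⟩
  refine ((hfin.union (finite_not_good hD (n + 1))).union (finite_roots_it hD n g hg0)).subset ?_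
  intro x hx
  by_cases hgood : Good (a : k) b c x (n + 1)
  swap
  · left; right; exact hgood
  by_cases hroot : aeval (it (a : k) b c x n) g = 0
  · right; exact ⟨hgood.mono (Nat.le_succ n), hroot⟩
  left; left
  obtain ⟨A, s, hs, hA, eA, hAn⟩ := hx
  obtain ⟨B, t, ht, hB, eB, hBn⟩ := h2 _ hroot
  obtain ⟨r, hr, er⟩ := ff_it n hgood
  have hf : ff (a : k) b c x ≠ 0 := by
    intro h0
    apply hgood 0 (Nat.succ_pos n)
    show dD (a : k) b c x = 0
    rw [dD_eq, h0, mul_zero]
  refine ⟨hgood, ?_⟩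
  obtain ⟨L, iF, iN, iA, α, β, hα, hβ, htop, -, hdeg, hld⟩ :=
    exists_field k 1 (A * B) one_ne_zero (mul_ne_zero hA hB)
  have m0 : ∀ z : k, z ≠ 0 → algebraMap k L z ≠ 0 := fun z hz => by
    rwa [Ne, map_eq_zero]
  set z : k := ff (a : k) b c x * r / (s * t) with hz
  have hz0 : z ≠ 0 := div_ne_zero (mul_ne_zero hf hr) (mul_ne_zero hs ht)
  have hβ0 : β ≠ 0 := by
    rintro rfl
    rw [zero_pow (by norm_num)] at hβ
    exact m0 _ (RingOfIntegers.coe_ne_zero_iff.2 (mul_ne_zero hA hB)) hβ.symm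
  refine ⟨L, iF, iN, iA, algebraMap k L z * β, mul_ne_zero (m0 z hz0) hβ0, ?_, ?_, hdeg rfl, ?_⟩
  · have e1 : ((A * B : 𝓞 k) : k) = (A : k) * (B : k) := rfl
    rw [mul_pow, hβ, ← map_pow, ← map_mul, e1, eA, eB, er, hz]
    congr 1
    field_simp
  · rw [eq_top_iff, ← htop, adjoin_le_iff]
    have my : algebraMap k L z * β ∈ k⟮algebraMap k L z * β⟯ := subset_adjoin k _ (by simp)
    intro w hw
    simp only [Set.mem_insert_iff, Set.mem_singleton_iff] at hw
    rcases hw with rfl | rfl
    · have h3 : w ^ 2 = 1 := by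
        rw [hα]
        simp
      have h4 : (w - 1) * (w + 1) = 0 := by linear_combination h3
      rcases mul_eq_zero.1 h4 with h5 | h5
      · rw [sub_eq_zero.1 h5]; exact one_mem _
      · rw [eq_neg_of_add_eq_zero_left h5]; exact neg_mem (one_mem _)
    · have e2 := mul_mem (inv_mem (IntermediateField.algebraMap_mem
        k⟮algebraMap k L z * w⟯ z)) my
      rwa [inv_mul_cancel_left₀ (m0 z hz0)] at e2
  · rw [log_norm_mul hA hB] at hld
    have e3 : Real.log |(Algebra.norm ℚ (((1 : 𝓞 k) : 𝓞 k) : k) : ℝ)| = 0 := by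
      have : (((1 : 𝓞 k) : 𝓞 k) : k) = 1 := rfl
      rw [this, map_one]
      simp
    rw [e3, zero_add] at hld
    linarith

/-- Vojta's inequality for the points of degree at most two -/
def VQ (F : k[X]) (m : ℕ) (G : k[X][X]) (κ ε C : ℝ) : Prop :=
  ∀ (L : Type) [Field L] [NumberField L] [Algebra k L] (x : Fin 2 → L) (y : L),
    y ^ 2 = aeval (x 0) F * aeval (x 1) F → y ≠ 0 →
    adjoin k {x 0, x 1, y} = ⊤ → finrank k L ≤ 2 → aevalAeval (x 0) (x 1) G ≠ 0 →
    m * ∑ i, lH k (x i) ≤ κ * lD k L + ε * ∑ i, lH k (x i) + C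

theorem mainQ (a b c : 𝓞 k) (hD : dsc (a : k) b c ≠ 0) (g : (𝓞 k)[X]) (m : ℕ)
    (hm : 1 ≤ m) (hg : g.natDegree = 2 * m)
    (hsep : IsCoprime (g.map (algebraMap (𝓞 k) k)) (derivative (g.map (algebraMap (𝓞 k) k))))
    (G : k[X][X]) (hG : G ≠ 0) (κ ε C : ℝ) (hκ : 0 ≤ κ)
    (hV : VQ ((fP a b c * g).map (algebraMap (𝓞 k) k)) m G κ ε C) (n : ℕ)
    (hn : κ * ((m - 1) + m * 4 ^ n) < (m - ε) * (4 ^ n + 1)) :
    (∃ i, 4 ^ n ≤ (G.coeff i).natDegree) ∧ 4 ^ n ≤ G.natDegree := by
  obtain ⟨C0, h0⟩ := exists_qpoint a b c hD n g m hm hg hsep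
  obtain ⟨B, hB, hit⟩ := it_height hD n
  set δ : ℝ := (m - ε) * (4 ^ n + 1) - κ * ((m - 1) + m * 4 ^ n) with hδ
  have hδ0 : 0 < δ := by linarith
  set T : ℝ := ((|(m : ℝ) - ε| + κ * m) * B + κ * C0 + C) / δ with hT
  set S := {x : k | Good (a : k) b c x (n + 1) ∧
      ∃ (L : Type) (_ : Field L) (_ : NumberField L) (_ : Algebra k L) (y : L), y ≠ 0 ∧
      y ^ 2 = algebraMap k L ((ff (a : k) b c x * aeval x g) *
        (ff (a : k) b c (it (a : k) b c x n) * aeval (it (a : k) b c x n) g)) ∧
      k⟮y⟯ = ⊤ ∧ finrank k L ≤ 2 ∧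
      lD k L ≤ (m - 1) * logHeight₁ x + m * logHeight₁ (it (a : k) b c x n) + C0} with hS
  have hbig : {x : k | x ∈ S ∧ T < logHeight₁ x}.Infinite := by
    intro hfin
    apply h0
    refine (hfin.union (NumberField.finite_setOfPred_logHeight₁_le k T)).subset ?_
    intro x hx
    by_cases h2 : T < logHeight₁ x
    · left; exact ⟨hx, h2⟩
    · right; exact not_lt.1 h2
  have key : ∀ x ∈ {x : k | x ∈ S ∧ T < logHeight₁ x}, G.evalEval x (it (a : k) b c x n) = 0 ∧
        G.evalEval (it (a : k) b c x n) x = 0 := by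
    rintro x ⟨⟨hgood, L, iF, iN, iA, y, hy0, hy2, htop, hdeg, hld⟩, hTx⟩
    have g1 := lH_eq L x
    have g2 := lH_eq L (it (a : k) b c x n)
    have g3 := hit x (hgood.mono (Nat.le_succ n)) n le_rfl
    rw [abs_le] at g3
    have hcontra : ∀ H : ℝ, H = lH k (algebraMap k L x) +
        lH k (algebraMap k L (it (a : k) b c x n)) → ¬ (m * H ≤ κ * lD k L + ε * H + C) := by
      intro H hH hle
      rw [g1, g2] at hH
      set h1 := logHeight₁ x with hh1
      set h2 := logHeight₁ (it (a : k) b c x n) with hh2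
      have e5 : κ * lD k L ≤ κ * ((m - 1) * h1 + m * h2 + C0) := mul_le_mul_of_nonneg_left hld hκ
      set θ : ℝ := h2 - 4 ^ n * h1 with hθ
      have hθB : |θ| ≤ B := abs_le.2 g3
      have e6 : δ * h1 ≤ (κ * m - (m - ε)) * θ + κ * C0 + C := by
        have r1 : (m - ε) * H = m * H - ε * H := by ring
        have r2 : δ * h1 = (m - ε) * H - κ * ((m - 1) * h1 + m * h2 + C0) + κ * C0 - (m - ε) * θ +
            κ * m * θ := by
          rw [hδ, hH, hθ]
          ring
        have r3 : (κ * m - (m - ε)) * θ = κ * m * θ - (m - ε) * θ := by ring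
        linarith
      have e7 : (κ * m - (m - ε)) * θ ≤ (|(m : ℝ) - ε| + κ * m) * B := by
        have e8 : (κ * m - (m - ε)) * θ ≤ |(κ * m - (m - ε)) * θ| := le_abs_self _
        refine e8.trans ?_
        rw [abs_mul]
        refine mul_le_mul ?_ hθB (abs_nonneg _) (by positivity)
        refine (abs_sub _ _).trans ?_
        rw [abs_of_nonneg (by positivity : (0 : ℝ) ≤ κ * m)]
        linarith
      have e4 : h1 ≤ T := by
        rw [hT, le_div_iff₀ hδ0, mul_comm]
        linarith
      exact absurd hTx (not_lt.2 e4)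
    have hF : ∀ z : k, aeval (algebraMap k L z) ((fP a b c * g).map (algebraMap (𝓞 k) k)) =
        algebraMap k L (ff (a : k) b c z * aeval z g) := by
      intro z
      rw [aeval_algebraMap_apply, aeval_map_algebraMap, map_mul (aeval z), fP_aeval]
    have hev : ∀ z w : k, aevalAeval (algebraMap k L z) (algebraMap k L w) G =
        algebraMap k L (G.evalEval z w) := by
      intro z w
      rw [← coe_aevalAeval_eq_evalEval]
      have h5 : (aevalAeval (R := k) (algebraMap k L z) (algebraMap k L w)) =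
          (Algebra.ofId k L).comp (aevalAeval (R := k) z w) := by
        apply (aevalAevalEquiv k L).symm.injective
        simp
      rw [h5]
      rfl
    constructor
    · by_contra hne
      have h6 := hV L ![algebraMap k L x, algebraMap k L (it (a : k) b c x n)] y (by
        simp only [Matrix.cons_val_zero, Matrix.cons_val_one]
        rw [hF, hF, ← map_mul, hy2]) hy0 (by
        rw [eq_top_iff, ← htop]
        apply adjoin.mono
        intro z hz
        rw [Set.mem_singleton_iff] at hz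
        rw [hz]
        simp) hdeg (by
        simp only [Matrix.cons_val_zero, Matrix.cons_val_one]
        rw [hev]
        rwa [Ne, map_eq_zero])
      rw [Fin.sum_univ_two] at h6
      exact hcontra _ rfl h6
    · by_contra hne
      have h6 := hV L ![algebraMap k L (it (a : k) b c x n), algebraMap k L x] y (by
        simp only [Matrix.cons_val_zero, Matrix.cons_val_one]
        rw [hF, hF, ← map_mul, hy2, mul_comm]) hy0 (by
        rw [eq_top_iff, ← htop]
        apply adjoin.mono
        intro z hz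
        rw [Set.mem_singleton_iff] at hz
        rw [hz]
        simp) hdeg (by
        simp only [Matrix.cons_val_zero, Matrix.cons_val_one]
        rw [hev]
        rwa [Ne, map_eq_zero])
      rw [Fin.sum_univ_two] at h6
      exact hcontra _ (add_comm _ _) h6
  constructor
  · refine degree_of_vanish hD n G hG (hbig.mono fun x hx => ?_)
    exact ⟨hx.1.1.mono (Nat.le_succ n), (key x hx).1⟩
  · refine degree_of_vanish' hD n G hG (hbig.mono fun x hx => ?_)
    exact ⟨hx.1.1.mono (Nat.le_succ n), (key x hx).2⟩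

end Pool.Agent.Helper892.VE
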