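import Pool.Agent.Helper892.VE.Dup

/-!
Iterated duplication: a polynomial in two variables which vanishes at infinitely many pairs
`(x, D^n x)` has degree at least `4 ^ n` in both variables.
-/

set_option autoImplicit false

open Polynomial

namespace Pool.Agent.Helper892.VE

open Pool.Agent.Y720.MZ

variable {K : Type} [Field K]

/-- numerator and denominator of the iterates -/
noncomputable def nm (a b c : K) : ℕ → K[X] × K[X]
  | 0 => (X, 1)
  | n + 1 =>
    ((nm a b c n).1 ^ 4 - C (2 * b) * (nm a b c n).1 ^ 2 * (nm a b c n).2 ^ 2 -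
        C (8 * c) * (nm a b c n).1 * (nm a b c n).2 ^ 3 + C (b ^ 2 - 4 * a * c) * (nm a b c n).2 ^ 4,
      4 * (nm a b c n).2 * ((nm a b c n).1 ^ 3 + C a * (nm a b c n).1 ^ 2 * (nm a b c n).2 +
        C b * (nm a b c n).1 * (nm a b c n).2 ^ 2 + C c * (nm a b c n).2 ^ 3))

/-- the values -/
lemma nm_eval {a b c x : K} (n : ℕ) (h : Good a b c x n) :
    (nm a b c n).2.eval x ≠ 0 ∧ (nm a b c n).1.eval x = it a b c x n * (nm a b c n).2.eval x := by
  induction n with
  | zero => simp [nm, it]
  | succ n ih =>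
    obtain ⟨h1, h2⟩ := ih (h.mono (Nat.le_succ n))
    have h3 := h n (Nat.lt_succ_self n)
    have e1 : (nm a b c (n + 1)).2.eval x =
        (nm a b c n).2.eval x ^ 4 * dD a b c (it a b c x n) := by
      simp only [nm, eval_mul, eval_add, eval_pow, eval_C, eval_ofNat, h2, dD]
      ring
    have e2 : (nm a b c (n + 1)).1.eval x =
        (nm a b c n).2.eval x ^ 4 * dN a b c (it a b c x n) := by
      simp only [nm, eval_mul, eval_add, eval_sub, eval_pow, eval_C, h2, dN]
      ring
    refine ⟨?_, ?_⟩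
    · rw [e1]
      exact mul_ne_zero (pow_ne_zero 4 h1) h3
    · rw [e1, e2]
      have : it a b c x (n + 1) = dN a b c (it a b c x n) / dD a b c (it a b c x n) := rfl
      rw [this]
      field_simp

lemma step_coprime {a b c : K} [CharZero K] (hD : dsc a b c ≠ 0) {N M : K[X]} (h : IsCoprime N M) :
    IsCoprime (N ^ 4 - C (2 * b) * N ^ 2 * M ^ 2 - C (8 * c) * N * M ^ 3 +
        C (b ^ 2 - 4 * a * c) * M ^ 4)
      (4 * M * (N ^ 3 + C a * N ^ 2 * M + C b * N * M ^ 2 + C c * M ^ 3)) := by
  set F := N ^ 3 + C a * N ^ 2 * M + C b * N * M ^ 2 + C c * M ^ 3 with hF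
  set F' := 3 * N ^ 2 + 2 * C a * N * M + C b * M ^ 2 with hF'
  set P := N ^ 4 - C (2 * b) * N ^ 2 * M ^ 2 - C (8 * c) * N * M ^ 3 +
        C (b ^ 2 - 4 * a * c) * M ^ 4 with hP
  have e1 : P = F' ^ 2 - 4 * (C a * M + 2 * N) * F := by
    rw [hP, hF, hF']
    simp only [C_mul, C_sub, C_pow, map_ofNat]
    ring
  have e2 : ((18 * C b - 6 * C a ^ 2) * N + (15 * C a * C b - 4 * C a ^ 3 - 27 * C c) * M) * F +
      ((2 * C a ^ 2 - 6 * C b) * N ^ 2 + (2 * C a ^ 3 - 7 * C a * C b + 9 * C c) * N * M +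
        (C a ^ 2 * C b + 3 * C a * C c - 4 * C b ^ 2) * M ^ 2) * F' =
      C (dsc a b c) * M ^ 4 := by
    rw [hF, hF', dsc]
    simp only [C_mul, C_sub, C_pow, C_add, map_ofNat]
    ring
  have hdu : IsUnit (C (dsc a b c)) := isUnit_C.2 (isUnit_iff_ne_zero.2 hD)
  have h4 : IsUnit (4 : K[X]) := by
    have : (4 : K[X]) = C 4 := by rw [map_ofNat]
    rw [this]
    exact isUnit_C.2 (isUnit_iff_ne_zero.2 (by norm_num))
  have key : ∀ p : K[X], Prime p → p ∣ F → p ∣ P → False := by
    intro p hp h1 h2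
    have h3 : p ∣ F' ^ 2 := by
      have : F' ^ 2 = P + 4 * (C a * M + 2 * N) * F := by rw [e1]; ring
      rw [this]
      exact dvd_add h2 (h1.mul_left _)
    have h3 := hp.dvd_of_dvd_pow h3
    have h5 : p ∣ C (dsc a b c) * M ^ 4 := by
      rw [← e2]
      exact dvd_add (h1.mul_left _) (h3.mul_left _)
    have h6 : p ∣ M ^ 4 := by
      rcases hp.dvd_or_dvd h5 with h | h
      · exact absurd (isUnit_of_dvd_unit h hdu) hp.not_unit
      · exact h
    have h7 := hp.dvd_of_dvd_pow h6
    have h8 : p ∣ N ^ 3 := by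
      have : N ^ 3 = F - M * (C a * N ^ 2 + C b * N * M + C c * M ^ 2) := by rw [hF]; ring
      rw [this]
      exact dvd_sub h1 (h7.mul_right _)
    exact hp.not_unit (h.isUnit_of_dvd' (hp.dvd_of_dvd_pow h8) h7)
  have key2 : ∀ p : K[X], Prime p → p ∣ M → p ∣ P → False := by
    intro p hp h1 h2
    have h8 : p ∣ N ^ 4 := by
      have : N ^ 4 = P + M * (C (2 * b) * N ^ 2 * M + C (8 * c) * N * M ^ 2 -
          C (b ^ 2 - 4 * a * c) * M ^ 3) := by rw [hP]; ring
      rw [this]
      exact dvd_add h2 (h1.mul_right _)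
    exact hp.not_unit (h.isUnit_of_dvd' (hp.dvd_of_dvd_pow h8) h1)
  refine isCoprime_of_prime_dvd ?_ ?_
  · rintro ⟨h1, h2⟩
    have hM : M = 0 ∨ F = 0 := by
      rcases mul_eq_zero.1 h2 with h | h
      · rcases mul_eq_zero.1 h with h | h
        · exact absurd h h4.ne_zero
        · exact Or.inl h
      · exact Or.inr h
    have hX : Prime (X : K[X]) := prime_X
    rcases hM with h | h
    · exact key2 X hX (h ▸ dvd_zero _) (h1 ▸ dvd_zero _)
    · exact key X hX (h ▸ dvd_zero _) (h1 ▸ dvd_zero _)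
  · intro p hp h1 h2
    rcases hp.dvd_or_dvd h2 with h | h
    · rcases hp.dvd_or_dvd h with h | h
      · exact hp.not_unit (isUnit_of_dvd_unit h h4)
      · exact key2 p hp h h1
    · exact key p hp h h1

lemma step_degree {a b c : K} {N M : K[X]} {d : ℕ} (hN : N.Monic)
    (hd : N.natDegree = d) (hM : M.natDegree < d) :
    (N ^ 4 - C (2 * b) * N ^ 2 * M ^ 2 - C (8 * c) * N * M ^ 3 +
        C (b ^ 2 - 4 * a * c) * M ^ 4).Monic ∧
    (N ^ 4 - C (2 * b) * N ^ 2 * M ^ 2 - C (8 * c) * N * M ^ 3 +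
        C (b ^ 2 - 4 * a * c) * M ^ 4).natDegree = 4 * d ∧
    (4 * M * (N ^ 3 + C a * N ^ 2 * M + C b * N * M ^ 2 + C c * M ^ 3)).natDegree < 4 * d := by
  have hmon : (N ^ 4).Monic := hN.pow 4
  have hdeg4 : (N ^ 4).natDegree = 4 * d := by rw [hN.natDegree_pow, hd]
  set R : K[X] := - (C (2 * b) * N ^ 2 * M ^ 2) - C (8 * c) * N * M ^ 3 +
        C (b ^ 2 - 4 * a * c) * M ^ 4 with hR
  have hRdeg : R.natDegree < 4 * d := by
    have h1 : (C (2 * b) * N ^ 2 * M ^ 2).natDegree ≤ 2 * d + 2 * M.natDegree := by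
      refine natDegree_mul_le.trans (add_le_add (natDegree_mul_le.trans ?_) natDegree_pow_le)
      rw [natDegree_C, zero_add]
      exact natDegree_pow_le.trans (by rw [hd])
    have h2 : (C (8 * c) * N * M ^ 3).natDegree ≤ d + 3 * M.natDegree := by
      refine natDegree_mul_le.trans (add_le_add (natDegree_mul_le.trans ?_) natDegree_pow_le)
      rw [natDegree_C, zero_add, hd]
    have h3 : (C (b ^ 2 - 4 * a * c) * M ^ 4).natDegree ≤ 4 * M.natDegree := by
      refine natDegree_mul_le.trans ?_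
      rw [natDegree_C, zero_add]
      exact natDegree_pow_le
    have h4 : R.natDegree ≤ max (max (2 * d + 2 * M.natDegree) (d + 3 * M.natDegree))
        (4 * M.natDegree) := by
      rw [hR]
      refine (natDegree_add_le _ _).trans (max_le_max ((natDegree_sub_le _ _).trans
        (max_le_max ?_ h2)) h3)
      rw [natDegree_neg]
      exact h1
    refine h4.trans_lt ?_
    rw [max_lt_iff, max_lt_iff]
    omega
  have hP : N ^ 4 - C (2 * b) * N ^ 2 * M ^ 2 - C (8 * c) * N * M ^ 3 +
        C (b ^ 2 - 4 * a * c) * M ^ 4 = N ^ 4 + R := by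
    rw [hR]; ring
  have hlt : R.degree < (N ^ 4).degree := by
    have hne : N ^ 4 ≠ 0 := hmon.ne_zero
    rw [degree_eq_natDegree hne, hdeg4]
    refine degree_le_natDegree.trans_lt ?_
    exact_mod_cast hRdeg
  refine ⟨?_, ?_, ?_⟩
  · rw [hP]
    exact hmon.add_of_left hlt
  · rw [hP, natDegree_add_eq_left_of_degree_lt hlt, hdeg4]
  · have h5 : (N ^ 3 + C a * N ^ 2 * M + C b * N * M ^ 2 + C c * M ^ 3).natDegree ≤ 3 * d := by
      have g1 : (N ^ 3).natDegree ≤ 3 * d := natDegree_pow_le.trans (by rw [hd])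
      have g2 : (C a * N ^ 2 * M).natDegree ≤ 3 * d := by
        refine natDegree_mul_le.trans ((add_le_add (natDegree_mul_le.trans
          (add_le_add (natDegree_C a).le natDegree_pow_le)) le_rfl).trans ?_)
        rw [hd]; omega
      have g3 : (C b * N * M ^ 2).natDegree ≤ 3 * d := by
        refine natDegree_mul_le.trans ((add_le_add (natDegree_mul_le.trans
          (add_le_add (natDegree_C b).le le_rfl)) natDegree_pow_le).trans ?_)
        rw [hd]; omega
      have g4 : (C c * M ^ 3).natDegree ≤ 3 * d := by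
        refine natDegree_mul_le.trans ((add_le_add (natDegree_C c).le natDegree_pow_le).trans ?_)
        omega
      exact (natDegree_add_le _ _).trans (max_le ((natDegree_add_le _ _).trans
        (max_le ((natDegree_add_le _ _).trans (max_le g1 g2)) g3)) g4)
    have h6 : (4 * M : K[X]).natDegree ≤ M.natDegree := by
      have : (4 : K[X]) = C 4 := by rw [map_ofNat]
      rw [this]
      exact natDegree_C_mul_le _ _
    refine (natDegree_mul_le.trans (add_le_add h6 h5)).trans_lt ?_
    omega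

lemma nm_prop [CharZero K] {a b c : K} (hD : dsc a b c ≠ 0) (n : ℕ) :
    IsCoprime (nm a b c n).1 (nm a b c n).2 ∧ (nm a b c n).1.Monic ∧
      (nm a b c n).1.natDegree = 4 ^ n ∧ (nm a b c n).2.natDegree < 4 ^ n := by
  induction n with
  | zero =>
    refine ⟨isCoprime_one_right, monic_X, ?_, ?_⟩
    · simp [nm]
    · simp [nm]
  | succ n ih =>
    obtain ⟨h1, h2, h3, h4⟩ := ih
    have h5 := step_degree (a := a) (b := b) (c := c) h2 h3 h4
    rw [pow_succ, mul_comm]
    exact ⟨step_coprime hD h1, h5⟩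

/-- a polynomial which vanishes at infinitely many pairs `(x, D^n x)` -/
theorem degree_of_vanish [CharZero K] {a b c : K} (hD : dsc a b c ≠ 0) (n : ℕ) (G : K[X][X])
    (hG : G ≠ 0)
    (h : {x : K | Good a b c x n ∧ G.evalEval x (it a b c x n) = 0}.Infinite) :
    ∃ i, 4 ^ n ≤ (G.coeff i).natDegree := by
  obtain ⟨hco, hmon, hdeg, -⟩ := nm_prop hD n
  set N := (nm a b c n).1 with hN
  set M := (nm a b c n).2 with hM
  set e := G.natDegree with he
  set H : K[X] := ∑ i ∈ Finset.range (e + 1), G.coeff i * N ^ i * M ^ (e - i) with hH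
  have hH0 : H = 0 := by
    refine Polynomial.eq_zero_of_infinite_isRoot H (h.mono ?_)
    rintro x ⟨hx, h0⟩
    obtain ⟨h1, h2⟩ := nm_eval n hx
    rw [← hN, ← hM] at h2
    rw [← hM] at h1
    show H.eval x = 0
    have h3 : H.eval x = M.eval x ^ e * G.evalEval x (it a b c x n) := by
      rw [hH, eval_finsetSum, ← map_evalRingHom_eval, eval_map, eval₂_eq_sum_range, ← he,
        Finset.mul_sum]
      refine Finset.sum_congr rfl fun i hi => ?_
      have hi' : i ≤ e := by
        rw [Finset.mem_range] at hi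
        omega
      rw [eval_mul, eval_mul, eval_pow, eval_pow, h2, coe_evalRingHom]
      have : M.eval x ^ e = M.eval x ^ i * M.eval x ^ (e - i) := by
        rw [← pow_add]
        congr 1
        omega
      rw [this]
      ring
    rw [h3, h0, mul_zero]
  set t := G.natTrailingDegree with ht
  have hte : t ≤ e := natTrailingDegree_le_natDegree G
  have hGt : G.coeff t ≠ 0 := by
    have := trailingCoeff_nonzero_iff_nonzero.2 hG
    exact this
  have hdvd : N ^ (t + 1) ∣ G.coeff t * N ^ t * M ^ (e - t) := by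
    have h1 : G.coeff t * N ^ t * M ^ (e - t) =
        H - ∑ i ∈ (Finset.range (e + 1)).erase t, G.coeff i * N ^ i * M ^ (e - i) := by
      rw [hH, ← Finset.add_sum_erase _ _ (Finset.mem_range.2 (by omega : t < e + 1))]
      ring
    rw [h1, hH0, zero_sub, dvd_neg]
    refine Finset.dvd_sum fun i hi => ?_
    rw [Finset.mem_erase] at hi
    rcases lt_or_gt_of_ne hi.1 with hlt | hgt
    · rw [coeff_eq_zero_of_lt_natTrailingDegree hlt]
      simp
    · refine Dvd.dvd.mul_right (Dvd.dvd.mul_left (pow_dvd_pow N (by omega)) _) _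
  have hN0 : N ≠ 0 := hmon.ne_zero
  have hdvd2 : N ∣ G.coeff t * M ^ (e - t) := by
    have h1 : G.coeff t * N ^ t * M ^ (e - t) = N ^ t * (G.coeff t * M ^ (e - t)) := by ring
    rw [h1, pow_succ] at hdvd
    exact (mul_dvd_mul_iff_left (pow_ne_zero t hN0)).1 hdvd
  have hdvd3 : N ∣ G.coeff t := (hco.pow_right).dvd_of_dvd_mul_right hdvd2
  refine ⟨t, ?_⟩
  rw [← hdeg]
  exact natDegree_le_of_dvd hdvd3 hGt

lemma coeff_coeff_swap (G : K[X][X]) (i j : ℕ) :
    ((Bivariate.swap G).coeff i).coeff j = (G.coeff j).coeff i := by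
  induction G using Polynomial.induction_on' with
  | add p q hp hq => rw [map_add, coeff_add, coeff_add, coeff_add, coeff_add, hp, hq]
  | monomial n f =>
    induction f using Polynomial.induction_on' with
    | add p q hp hq =>
      rw [map_add (monomial n), map_add, coeff_add, coeff_add, coeff_add, coeff_add, hp, hq]
    | monomial m r =>
      rw [Bivariate.swap_monomial_monomial, coeff_monomial, coeff_monomial]
      split_ifs with h1 h2 h2
      · rw [coeff_monomial, coeff_monomial, if_pos h2, if_pos h1]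
      · rw [coeff_monomial, if_neg h2, coeff_zero]
      · rw [coeff_monomial, if_neg h1, coeff_zero]
      · rw [coeff_zero, coeff_zero]

/-- the same for the pairs `(D^n x, x)` -/
theorem degree_of_vanish' [CharZero K] {a b c : K} (hD : dsc a b c ≠ 0) (n : ℕ) (G : K[X][X])
    (hG : G ≠ 0)
    (h : {x : K | Good a b c x n ∧ G.evalEval (it a b c x n) x = 0}.Infinite) :
    4 ^ n ≤ G.natDegree := by
  have h0 : Bivariate.swap G ≠ 0 := by
    intro h1
    exact hG ((map_eq_zero_iff _ (Bivariate.swap (R := K)).injective).1 h1)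
  obtain ⟨i, hi⟩ := degree_of_vanish hD n (Bivariate.swap G) h0 (h.mono (by
    rintro x ⟨h1, h2⟩
    refine ⟨h1, ?_⟩
    have := Bivariate.aevalAeval_swap x (it a b c x n) G
    rw [coe_aevalAeval_eq_evalEval, coe_aevalAeval_eq_evalEval] at this
    rw [this, h2]))
  refine hi.trans ?_
  rw [natDegree_le_iff_coeff_eq_zero]
  intro j hj
  rw [coeff_coeff_swap, coeff_eq_zero_of_natDegree_lt hj, coeff_zero]

end Pool.Agent.Helper892.VE
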