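import Pool.Agent.Helper892.VE.Poly
import Pool.Agent.Helper892.VE.Rep
import Pool.Agent.Helper892.VE.Field

/-!
The ordinates of the multiples `2^n P`.
-/

set_option autoImplicit false

open NumberField Module Polynomial Height

namespace Pool.Agent.Helper892.VE

open Pool.Agent.Y720.MZ

section ord

variable {K : Type} [Field K] [CharZero K]

/-- the ordinates of the multiples -/
noncomputable def yy (a b c x y : K) : ℕ → K
  | 0 => y
  | n + 1 => ww a b c (it a b c x n) / (8 * yy a b c x y n ^ 3)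

lemma yy_prop {a b c x y : K} (h : y ^ 2 = ff a b c x) (n : ℕ) (hg : Good a b c x n) :
    yy a b c x y n ^ 2 = ff a b c (it a b c x n) ∧ ∀ i < n, yy a b c x y i ≠ 0 := by
  induction n with
  | zero => exact ⟨h, fun i hi => absurd hi (Nat.not_lt_zero i)⟩
  | succ n ih =>
    obtain ⟨h1, h2⟩ := ih (hg.mono (Nat.le_succ n))
    have h3 := hg n (Nat.lt_succ_self n)
    have h4 : yy a b c x y n ≠ 0 := by
      intro h0
      rw [h0, zero_pow (by norm_num)] at h1
      apply h3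
      rw [dD_eq, ← h1, mul_zero]
    refine ⟨?_, ?_⟩
    · have e1 := ff_dd a b c (it a b c x n) h3
      have e2 : it a b c x (n + 1) = dd a b c (it a b c x n) := rfl
      have e3 : yy a b c x y (n + 1) = ww a b c (it a b c x n) / (8 * yy a b c x y n ^ 3) := rfl
      have e4 : dD a b c (it a b c x n) ^ 3 = (8 * yy a b c x y n ^ 3) ^ 2 := by
        rw [dD_eq, ← h1]; ring
      have h8 : (8 * yy a b c x y n ^ 3) ^ 2 ≠ 0 :=
        pow_ne_zero _ (mul_ne_zero (by norm_num) (pow_ne_zero _ h4))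
      rw [e2, e3, div_pow, ← e1, e4, mul_div_assoc, div_self h8, mul_one]
    · intro i hi
      rcases Nat.lt_succ_iff_lt_or_eq.1 hi with h5 | h5
      · exact h2 i h5
      · rw [h5]; exact h4

lemma yy_mul {a b c x y : K} (h : y ^ 2 = ff a b c x) (n : ℕ) (hg : Good a b c x (n + 1)) :
    ∃ s : K, s ≠ 0 ∧ yy a b c x y n * y =
      s ^ 2 * ∏ i ∈ Finset.range n, (2 * ww a b c (it a b c x i)) := by
  have h0 := (yy_prop h (n + 1) hg).2
  have key : ∀ j ≤ n, ∃ s : K, s ≠ 0 ∧ yy a b c x y j * y =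
      s ^ 2 * ∏ i ∈ Finset.range j, (2 * ww a b c (it a b c x i)) := by
    intro j
    induction j with
    | zero =>
      intro _
      refine ⟨y, h0 0 (Nat.succ_pos n), ?_⟩
      simp [yy, pow_two]
    | succ j ih =>
      intro hj
      obtain ⟨s, hs, e⟩ := ih (by omega)
      have hj0 := h0 j (by omega)
      refine ⟨s / (4 * yy a b c x y j ^ 2),
        div_ne_zero hs (mul_ne_zero (by norm_num) (pow_ne_zero 2 hj0)), ?_⟩
      rw [Finset.prod_range_succ]
      have e3 : yy a b c x y (j + 1) = ww a b c (it a b c x j) / (8 * yy a b c x y j ^ 3) := rfl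
      have e4 : yy a b c x y (j + 1) * y = 2 * ww a b c (it a b c x j) /
          (16 * yy a b c x y j ^ 4) * (yy a b c x y j * y) := by
        rw [e3]
        field_simp
        ring
      rw [e4, e]
      field_simp
      ring
  exact key n le_rfl

lemma ww_ne {a b c x y : K} (h : y ^ 2 = ff a b c x) (n : ℕ) (hg : Good a b c x (n + 1)) :
    ∀ i < n, 2 * ww a b c (it a b c x i) ≠ 0 := by
  intro i hi h1
  have h0 := (yy_prop h (n + 1) hg).2 (i + 1) (by omega)
  apply h0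
  have : ww a b c (it a b c x i) = 0 := (mul_eq_zero.1 h1).resolve_left two_ne_zero
  show ww a b c (it a b c x i) / (8 * yy a b c x y i ^ 3) = 0
  rw [this, zero_div]

end ord

variable {k : Type} [Field k] [NumberField k]

/-- the cubic -/
noncomputable def fP (a b c : 𝓞 k) : (𝓞 k)[X] := X ^ 3 + C a * X ^ 2 + C b * X + C c

lemma fP_aeval (a b c : 𝓞 k) (x : k) : aeval x (fP a b c) = ff (a : k) b c x := by
  simp only [fP, map_add, map_mul, map_pow, aeval_X, aeval_C, ff]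

lemma fP_deg (a b c : 𝓞 k) : (fP a b c).natDegree ≤ 4 := by
  unfold fP
  compute_degree!

/-- twice the numerator of the ordinate -/
noncomputable def wP (a b c : 𝓞 k) : (𝓞 k)[X] :=
  C 2 * (X ^ 6 + C (2 * a) * X ^ 5 + C (5 * b) * X ^ 4 + C (20 * c) * X ^ 3 +
    C (20 * a * c - 5 * b ^ 2) * X ^ 2 + C (8 * a ^ 2 * c - 2 * a * b ^ 2 - 4 * b * c) * X +
    C (4 * a * b * c - b ^ 3 - 8 * c ^ 2))

lemma wP_aeval (a b c : 𝓞 k) (x : k) : aeval x (wP a b c) = 2 * ww (a : k) b c x := by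
  simp only [wP, map_add, map_sub, map_mul, map_pow, aeval_X, aeval_C, ww, map_ofNat]

lemma wP_deg (a b c : 𝓞 k) : (wP a b c).natDegree ≤ 2 * 3 := by
  unfold wP
  compute_degree!

lemma log_norm_mul {A B : 𝓞 k} (hA : A ≠ 0) (hB : B ≠ 0) :
    Real.log |(Algebra.norm ℚ ((A * B : 𝓞 k) : k) : ℝ)| =
      Real.log |(Algebra.norm ℚ (A : k) : ℝ)| + Real.log |(Algebra.norm ℚ (B : k) : ℝ)| := by
  have h1 : ∀ A : 𝓞 k, A ≠ 0 → |(Algebra.norm ℚ (A : k) : ℝ)| ≠ 0 := by
    intro A hA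
    rw [abs_ne_zero]
    have : Algebra.norm ℚ (A : k) ≠ 0 := by
      rw [Algebra.norm_ne_zero_iff]
      exact RingOfIntegers.coe_ne_zero_iff.2 hA
    exact_mod_cast this
  have e : ((A * B : 𝓞 k) : k) = (A : k) * B := rfl
  rw [e, map_mul]
  push_cast
  rw [abs_mul, Real.log_mul (h1 A hA) (h1 B hB)]

/-- the integers `A = y s²`, `B = y y_n t²` -/
theorem exists_AB (a b c : 𝓞 k) (hD : dsc (a : k) b c ≠ 0) (n : ℕ) : ∃ C₀ : ℝ, ∀ x y : k,
    y ^ 2 = ff (a : k) b c x → Good (a : k) b c x (n + 1) →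
    ∃ A B : 𝓞 k, A ≠ 0 ∧ B ≠ 0 ∧ (∃ s : k, s ≠ 0 ∧ (A : k) = s ^ 2 * y) ∧
      (∃ s : k, s ≠ 0 ∧ (B : k) = s ^ 2 * (yy (a : k) b c x y n * y)) ∧
      (Real.log |(Algebra.norm ℚ (A : k) : ℝ)| + Real.log |(Algebra.norm ℚ (B : k) : ℝ)|) / 2 ≤
        4 ^ n * logHeight₁ x + C₀ := by
  obtain ⟨C1, h1⟩ := exists_int_sqrt k (fP a b c) (fP_deg a b c)
  obtain ⟨C2, h2⟩ := exists_int k (wP a b c) 3 (wP_deg a b c)
  obtain ⟨B0, hB0, hit⟩ := it_height hD n
  refine ⟨(C1 + n * (6 * B0 + C2)) / 2, fun x y hxy hg => ?_⟩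
  have hy : y ≠ 0 := (yy_prop hxy (n + 1) hg).2 0 (Nat.succ_pos n)
  obtain ⟨A, s, hs, hA, eA, hAn⟩ := h1 x y (by rw [fP_aeval]; exact hxy) hy
  have hw := ww_ne hxy n hg
  have hB : ∀ j ≤ n, ∃ (B : 𝓞 k) (t : k), t ≠ 0 ∧ B ≠ 0 ∧
      (B : k) = t ^ 2 * ∏ i ∈ Finset.range j, (2 * ww (a : k) b c (it (a : k) b c x i)) ∧
      Real.log |(Algebra.norm ℚ (B : k) : ℝ)| ≤
        2 * (4 ^ j - 1) * logHeight₁ x + j * (6 * B0 + C2) := by
    intro j
    induction j with
    | zero =>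
      intro _
      refine ⟨1, 1, one_ne_zero, one_ne_zero, by simp, ?_⟩
      simp
    | succ j ih =>
      intro hj
      obtain ⟨B, t, ht, hB, eB, hBn⟩ := ih (by omega)
      obtain ⟨B', t', ht', hB', eB', hBn'⟩ := h2 (it (a : k) b c x j) (by
        rw [wP_aeval]
        exact hw j (by omega))
      rw [wP_aeval] at eB'
      refine ⟨B * B', t * t', mul_ne_zero ht ht', mul_ne_zero hB hB', ?_, ?_⟩
      · have e : ((B * B' : 𝓞 k) : k) = (B : k) * B' := rfl
        rw [e, eB, eB', Finset.prod_range_succ]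
        ring
      · rw [log_norm_mul hB hB']
        have h3 := hit x (hg.mono (Nat.le_succ n)) j (by omega)
        rw [abs_le] at h3
        push_cast at hBn' ⊢
        rw [pow_succ]
        nlinarith [h3.2]
  obtain ⟨B, t, ht, hB, eB, hBn⟩ := hB n le_rfl
  obtain ⟨r, hr, er⟩ := yy_mul hxy n hg
  refine ⟨A, B, hA, hB, ⟨s, hs, eA⟩, ⟨t / r, div_ne_zero ht hr, ?_⟩, ?_⟩
  · rw [eB, er]
    field_simp
  · nlinarith

end Pool.Agent.Helper892.VE
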