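import Pool.Agent.Helper892.VE.Pts
import Pool.Agent.Helper259.HtExt

/-!
Points of degree at most four of the products `C × C`, `C : u⁴ = x³ + a x² + b x + c`.
-/

set_option autoImplicit false

open NumberField Module Polynomial Height IntermediateField

namespace Pool.Agent.Helper892.VE

open Pool.Agent.Y720.MZ

variable {k : Type} [Field k] [NumberField k]

/-- the height, relative to `k`, of the point `(x : u : 1)` of the plane -/
noncomputable def pH (k : Type) {L : Type} [Field k] [NumberField k] [Field L] [NumberField L]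
    [Algebra k L] (x u : L) : ℝ := logHeight ![x, u, 1] / finrank k L

lemma pH_ge (L : Type) [Field L] [NumberField L] [Algebra k L] (x : k) (u : L) :
    logHeight₁ x ≤ pH k (algebraMap k L x) u := by
  have hkL : (0 : ℝ) < finrank k L := by exact_mod_cast finrank_pos
  have h1 := Pool.Agent.Helper259.HtExt.logHeight_ext (L := L) ![x, 1]
  have h2 : (fun i => algebraMap k L (![x, 1] i)) = ![algebraMap k L x, 1] := by
    funext i
    fin_cases i <;> simp
  rw [h2, ← logHeight₁_eq_logHeight x] at h1
  have h3 := logHeight_comp_le (![0, 2] : Fin 2 → Fin 3) ![algebraMap k L x, u, 1]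
  have h4 : (![algebraMap k L x, u, 1] : Fin 3 → L) ∘ (![0, 2] : Fin 2 → Fin 3) =
      ![algebraMap k L x, 1] := by
    funext i
    fin_cases i <;> simp
  rw [h4, h1] at h3
  unfold pH
  rw [le_div_iff₀ hkL, mul_comm]
  exact h3

/-- the points over `(P, 2^n P)` -/
theorem exists_point (a b c : 𝓞 k) (hD : dsc (a : k) b c ≠ 0) (n : ℕ) : ∃ C₀ : ℝ, ∀ x y : k,
    y ^ 2 = ff (a : k) b c x → Good (a : k) b c x (n + 1) →
    ∃ (L : Type) (_ : Field L) (_ : NumberField L) (_ : Algebra k L) (u v : L),
      u ^ 4 = algebraMap k L (ff (a : k) b c x) ∧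
      v ^ 4 = algebraMap k L (ff (a : k) b c (it (a : k) b c x n)) ∧
      k⟮u, v⟯ = ⊤ ∧ finrank k L ≤ 4 ∧
      lD k L ≤ 4 ^ n * logHeight₁ x + C₀ := by
  obtain ⟨C0, h0⟩ := exists_AB a b c hD n
  refine ⟨C0 + 2 * finrank ℚ k * Real.log 2, fun x y hxy hg => ?_⟩
  obtain ⟨A, B, hA, hB, ⟨s, hs, eA⟩, ⟨t, ht, eB⟩, hAB⟩ := h0 x y hxy hg
  obtain ⟨L, iF, iN, iA, α, β, hα, hβ, htop, hdeg, -, hld⟩ := exists_field k A B hA hB
  have hy := (yy_prop hxy (n + 1) hg).2 0 (Nat.succ_pos n)
  have hy : y ≠ 0 := hy
  have hyn := (yy_prop hxy n (hg.mono (Nat.le_succ n))).1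
  have m0 : ∀ z : k, z ≠ 0 → algebraMap k L z ≠ 0 := fun z hz => by
    rwa [Ne, map_eq_zero]
  have hα0 : α ≠ 0 := by
    rintro rfl
    rw [zero_pow (by norm_num)] at hα
    exact m0 _ (RingOfIntegers.coe_ne_zero_iff.2 hA) hα.symm
  set u : L := α / algebraMap k L s with hu
  set v : L := α * β / algebraMap k L (s * t * y) with hv
  have hsL := m0 s hs
  have hstyL := m0 (s * t * y) (mul_ne_zero (mul_ne_zero hs ht) hy)
  have hu2 : u ^ 2 = algebraMap k L y := by
    rw [hu, div_pow, hα, eA, map_mul, map_pow]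
    field_simp
  have hv2 : v ^ 2 = algebraMap k L (yy (a : k) b c x y n) := by
    rw [hv, div_pow, mul_pow, hα, hβ, eA, eB, ← map_mul, ← map_pow, ← map_div₀]
    congr 1
    field_simp
  refine ⟨L, iF, iN, iA, u, v, ?_, ?_, ?_, hdeg, ?_⟩
  · rw [← hxy, map_pow, ← hu2]
    ring
  · rw [← hyn, map_pow, ← hv2]
    ring
  · rw [eq_top_iff, ← htop, adjoin_le_iff]
    have mu : u ∈ k⟮u, v⟯ := subset_adjoin k _ (by simp)
    have mv : v ∈ k⟮u, v⟯ := subset_adjoin k _ (by simp)
    have mα : α ∈ k⟮u, v⟯ := by
      have : α = u * algebraMap k L s := by rw [hu]; field_simp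
      rw [this]
      exact mul_mem mu (IntermediateField.algebraMap_mem _ _)
    have mβ : β ∈ k⟮u, v⟯ := by
      have : β = v * algebraMap k L (s * t * y) / α := by rw [hv]; field_simp
      rw [this]
      exact div_mem (mul_mem mv (IntermediateField.algebraMap_mem _ _)) mα
    intro z hz
    simp only [Set.mem_insert_iff, Set.mem_singleton_iff] at hz
    rcases hz with rfl | rfl
    · exact mα
    · exact mβ
  · linarith

/-- Vojta's inequality for the points of degree at most four -/
def VI (a b c : 𝓞 k) (G : k[X][X]) (κ ε C : ℝ) : Prop :=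
  ∀ (L : Type) [Field L] [NumberField L] [Algebra k L] (x u : Fin 2 → L),
    (∀ i, u i ^ 4 = x i ^ 3 + algebraMap k L a * x i ^ 2 + algebraMap k L b * x i +
      algebraMap k L c) →
    adjoin k {x 0, x 1, u 0, u 1} = ⊤ → finrank k L ≤ 4 → aevalAeval (x 0) (x 1) G ≠ 0 →
    ∑ i, pH k (x i) (u i) ≤ κ * lD k L + ε * ∑ i, pH k (x i) (u i) + C

theorem main (a b c : 𝓞 k) (hD : dsc (a : k) b c ≠ 0)
    (hE : {P : k × k | P.2 ^ 2 = ff (a : k) b c P.1}.Infinite) (G : k[X][X]) (hG : G ≠ 0)
    (κ ε C : ℝ) (hκ : 0 ≤ κ) (hV : VI a b c G κ ε C) (n : ℕ)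
    (hn : κ * 4 ^ n < (1 - ε) * (4 ^ n + 1)) :
    (∃ i, 4 ^ n ≤ (G.coeff i).natDegree) ∧ 4 ^ n ≤ G.natDegree := by
  obtain ⟨C0, h0⟩ := exists_point a b c hD n
  obtain ⟨B, hB, hit⟩ := it_height hD n
  -- the abscissas
  have hX : {x : k | ∃ y, y ^ 2 = ff (a : k) b c x}.Infinite := by
    intro hfin
    apply hE
    refine (hfin.biUnion (t := fun x => {P : k × k | P.1 = x ∧ P.2 ^ 2 = ff (a : k) b c x}) ?_).subset ?_
    · intro x _
      by_cases hy : ∃ y : k, y ^ 2 = ff (a : k) b c x
      · obtain ⟨y, hy⟩ := hy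
        refine (Set.toFinite {(x, y), (x, -y)}).subset ?_
        rintro ⟨x', y'⟩ ⟨rfl, h2⟩
        have h3 : (y' - y) * (y' + y) = 0 := by
          have : y' ^ 2 = ff (a : k) b c x' := h2
          linear_combination this - hy
        rcases mul_eq_zero.1 h3 with h4 | h4
        · left; rw [sub_eq_zero.1 h4]
        · right
          rw [Set.mem_singleton_iff, eq_neg_of_add_eq_zero_left h4]
      · convert Set.finite_empty (α := k × k)
        ext ⟨x', y'⟩
        simp only [Set.mem_ofPred_eq, Set.mem_empty_iff_false, iff_false]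
        rintro ⟨-, h⟩
        exact hy ⟨_, h⟩
    · rintro ⟨x, y⟩ h
      simp only [Set.mem_iUnion]
      exact ⟨x, ⟨y, h⟩, rfl, h⟩
  set δ : ℝ := (1 - ε) * (4 ^ n + 1) - κ * 4 ^ n with hδ
  have hδ0 : 0 < δ := by linarith
  have h4 : (1 : ℝ) ≤ 4 ^ n := one_le_pow₀ (by norm_num)
  have hε1 : ε < 1 := by
    by_contra h
    push Not at h
    nlinarith
  -- the points with large height
  set T : ℝ := ((1 - ε) * B + κ * C0 + C) / δ with hT
  have hbig : {x : k | (∃ y, y ^ 2 = ff (a : k) b c x) ∧ Good (a : k) b c x (n + 1) ∧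
      T < logHeight₁ x}.Infinite := by
    intro hfin
    apply hX
    refine ((hfin.union (finite_not_good hD (n + 1))).union
      (NumberField.finite_setOfPred_logHeight₁_le k T)).subset ?_
    intro x hx
    by_cases h1 : Good (a : k) b c x (n + 1)
    · by_cases h2 : T < logHeight₁ x
      · left; left; exact ⟨hx, h1, h2⟩
      · right; exact not_lt.1 h2
    · left; right; exact h1
  have key : ∀ x ∈ {x : k | (∃ y, y ^ 2 = ff (a : k) b c x) ∧ Good (a : k) b c x (n + 1) ∧
      T < logHeight₁ x}, G.evalEval x (it (a : k) b c x n) = 0 ∧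
        G.evalEval (it (a : k) b c x n) x = 0 := by
    rintro x ⟨⟨y, hxy⟩, hg, hTx⟩
    obtain ⟨L, iF, iN, iA, u, v, hu, hv, htop, hdeg, hld⟩ := h0 x y hxy hg
    have g1 := pH_ge L x u
    have g2 := pH_ge L (it (a : k) b c x n) v
    have g3 := hit x (hg.mono (Nat.le_succ n)) n le_rfl
    rw [abs_le] at g3
    have hcontra : ∀ H : ℝ, H = pH k (algebraMap k L x) u +
        pH k (algebraMap k L (it (a : k) b c x n)) v → ¬ (H ≤ κ * lD k L + ε * H + C) := by
      intro H hH hle
      have e1 : (4 ^ n + 1) * logHeight₁ x - B ≤ H := by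
        rw [hH]; nlinarith [g3.1]
      have e2 : (1 - ε) * ((4 ^ n + 1) * logHeight₁ x - B) ≤ (1 - ε) * H :=
        mul_le_mul_of_nonneg_left e1 (by linarith)
      have e5 : κ * lD k L ≤ κ * (4 ^ n * logHeight₁ x + C0) := mul_le_mul_of_nonneg_left hld hκ
      have e3 : δ * logHeight₁ x ≤ (1 - ε) * B + κ * C0 + C := by
        rw [hδ]
        nlinarith
      have e4 : logHeight₁ x ≤ T := by
        rw [hT, le_div_iff₀ hδ0, mul_comm]
        exact e3
      exact absurd hTx (not_lt.2 e4)
    have hcub : ∀ z : k, algebraMap k L (ff (a : k) b c z) =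
        algebraMap k L z ^ 3 + algebraMap k L a * algebraMap k L z ^ 2 +
          algebraMap k L b * algebraMap k L z + algebraMap k L c := by
      intro z
      simp only [ff, map_add, map_mul, map_pow]
    have hev : ∀ z w : k, aevalAeval (algebraMap k L z) (algebraMap k L w) G =
        algebraMap k L (G.evalEval z w) := by
      intro z w
      rw [← coe_aevalAeval_eq_evalEval]
      have h5 : (aevalAeval (R := k) (algebraMap k L z) (algebraMap k L w)) =
          (Algebra.ofId k L).comp (aevalAeval (R := k) z w) := by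
        apply (aevalAevalEquiv k L).symm.injective
        simp
      rw [h5]
      rfl
    constructor
    · by_contra hne
      have h6 := hV L ![algebraMap k L x, algebraMap k L (it (a : k) b c x n)] ![u, v] (by
        intro i
        fin_cases i
        · simp only [Fin.zero_eta, Matrix.cons_val_zero]
          rw [hu, hcub]
        · simp only [Fin.mk_one, Matrix.cons_val_one, Matrix.cons_val_zero]
          rw [hv, hcub]) (by
        rw [eq_top_iff, ← htop]
        apply adjoin.mono
        intro z hz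
        simp only [Set.mem_insert_iff, Set.mem_singleton_iff] at hz ⊢
        rcases hz with rfl | rfl
        · right; right; left; rfl
        · right; right; right; rfl) hdeg (by
        simp only [Matrix.cons_val_zero, Matrix.cons_val_one]
        rw [hev]
        rwa [Ne, map_eq_zero])
      rw [Fin.sum_univ_two] at h6
      exact hcontra _ rfl h6
    · by_contra hne
      have h6 := hV L ![algebraMap k L (it (a : k) b c x n), algebraMap k L x] ![v, u] (by
        intro i
        fin_cases i
        · simp only [Fin.zero_eta, Matrix.cons_val_zero]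
          rw [hv, hcub]
        · simp only [Fin.mk_one, Matrix.cons_val_one, Matrix.cons_val_zero]
          rw [hu, hcub]) (by
        rw [eq_top_iff, ← htop]
        apply adjoin.mono
        intro z hz
        simp only [Set.mem_insert_iff, Set.mem_singleton_iff] at hz ⊢
        rcases hz with rfl | rfl
        · right; right; right; rfl
        · right; right; left; rfl) hdeg (by
        simp only [Matrix.cons_val_zero, Matrix.cons_val_one]
        rw [hev]
        rwa [Ne, map_eq_zero])
      rw [Fin.sum_univ_two] at h6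
      exact hcontra _ (add_comm _ _) h6
  constructor
  · refine degree_of_vanish hD n G hG (hbig.mono fun x hx => ?_)
    exact ⟨hx.2.1.mono (Nat.le_succ n), (key x hx).1⟩
  · refine degree_of_vanish' hD n G hG (hbig.mono fun x hx => ?_)
    exact ⟨hx.2.1.mono (Nat.le_succ n), (key x hx).2⟩

end Pool.Agent.Helper892.VE
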