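import Pool.Agent.Y720.MZ.Nor

/-!
Iterated duplication on `y² = x³ + a x² + b x + c`: heights.
-/

set_option autoImplicit false

open Height

namespace Pool.Agent.Helper892.VE

open Pool.Agent.Y720.MZ

variable {K : Type} [Field K]

/-- the cubic -/
def ff (a b c x : K) : K := x ^ 3 + a * x ^ 2 + b * x + c

/-- the numerator of the ordinate of the duplication -/
def ww (a b c x : K) : K :=
  x ^ 6 + 2 * a * x ^ 5 + 5 * b * x ^ 4 + 20 * c * x ^ 3 + (20 * a * c - 5 * b ^ 2) * x ^ 2 +
    (8 * a ^ 2 * c - 2 * a * b ^ 2 - 4 * b * c) * x + (4 * a * b * c - b ^ 3 - 8 * c ^ 2)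

lemma dD_eq (a b c x : K) : dD a b c x = 4 * ff a b c x := rfl

/-- the ordinate of the duplication -/
lemma ww_sq (a b c x : K) : ww a b c x ^ 2 =
    dN a b c x ^ 3 + a * dN a b c x ^ 2 * dD a b c x + b * dN a b c x * dD a b c x ^ 2 +
      c * dD a b c x ^ 3 := by
  unfold ww dN dD
  ring

/-- the first coordinate of the duplication -/
noncomputable def dd (a b c x : K) : K := dN a b c x / dD a b c x

lemma ff_dd (a b c x : K) (h : dD a b c x ≠ 0) :
    ff a b c (dd a b c x) * dD a b c x ^ 3 = ww a b c x ^ 2 := by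
  rw [ww_sq]
  unfold ff dd
  field_simp

/-- the iterates -/
noncomputable def it (a b c x : K) : ℕ → K
  | 0 => x
  | n + 1 => dd a b c (it a b c x n)

/-- the first `n` iterates are different from the roots of the cubic -/
def Good (a b c x : K) (n : ℕ) : Prop := ∀ i < n, dD a b c (it a b c x i) ≠ 0

lemma Good.mono {a b c x : K} {m n : ℕ} (h : Good a b c x n) (hm : m ≤ n) : Good a b c x m :=
  fun i hi => h i (hi.trans_le hm)

variable [NumberField K]

/-- the height of the duplication -/
lemma dup_height {a b c : K} (hD : dsc a b c ≠ 0) : ∃ B : ℝ, 0 ≤ B ∧ ∀ x : K,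
    (dD a b c x = 0 → logHeight₁ x ≤ B) ∧
    (dD a b c x ≠ 0 → |logHeight₁ (dd a b c x) - 4 * logHeight₁ x| ≤ B) := by
  have := cv_ell hD
  obtain ⟨B0, hB0, h0⟩ := dbl_height hD
  obtain ⟨C1, hC1⟩ := abs_logHeight_sym2_sub_le K
  obtain ⟨C2, hC2⟩ := WeierstrassCurve.abs_logHeight_addSubMap_sub_two_mul_logHeight_le (cv a b c)
  have hC10 : 0 ≤ C1 := (abs_nonneg _).trans (hC1 (a := 1) (b := 0) (c := 1) (d := 0)
    (by intro h; simpa using congrFun h 0) (by intro h; simpa using congrFun h 0))
  have hC20 : 0 ≤ C2 := (abs_nonneg _).trans (hC2 0)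
  have hx1 : ∀ x : K, ![x, 1] ≠ 0 := fun x h => by simpa using congrFun h 1
  have h10 : logHeight ![(1 : K), 0] = 0 := by
    rw [logHeight_swap, ← logHeight₁_eq_logHeight, logHeight₁_zero]
  have hne : ![(1 : K), 0] ≠ 0 := by
    intro h; simpa using congrFun h 0
  refine ⟨B0 + (2 * C1 + C2 + C1), by positivity, fun x => ⟨fun h => ?_, fun h => ?_⟩⟩
  · have := (h0 x).1 h
    have : 0 ≤ 2 * C1 + C2 + C1 := by positivity
    linarith
  · have h1 := hC1 (hx1 x) (hx1 x)
    have h2 := hC2 ![x ^ 2, 2 * x, 1]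
    rw [eval_addSub] at h2
    have e : (![x * x, x * 1 + 1 * x, 1 * 1] : Fin 3 → K) = ![x ^ 2, 2 * x, 1] := by
      funext i; fin_cases i
      · simp; ring
      · simp; ring
      · simp
    rw [e, ← logHeight₁_eq_logHeight] at h1
    have h3 := hC1 (hx1 (dd a b c x)) hne
    have e : (![dd a b c x * 1, dd a b c x * 0 + 1 * 1, 1 * 0] :
        Fin 3 → K) = (dD a b c x)⁻¹ • ![dN a b c x, dD a b c x, 0] := by
      funext i; fin_cases i
      · simp [dd, div_eq_inv_mul]
      · simp [h]
      · simp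
    rw [e, logHeight_smul_eq_logHeight _ (inv_ne_zero h), h10, ← logHeight₁_eq_logHeight] at h3
    rw [abs_le] at h1 h2 h3 ⊢
    constructor <;> linarith [h1.1, h1.2, h2.1, h2.2, h3.1, h3.2]

/-- the heights of the iterates -/
lemma it_height {a b c : K} (hD : dsc a b c ≠ 0) (n : ℕ) : ∃ B : ℝ, 0 ≤ B ∧ ∀ x : K,
    Good a b c x n → ∀ i ≤ n, |logHeight₁ (it a b c x i) - 4 ^ i * logHeight₁ x| ≤ B := by
  obtain ⟨B0, hB0, h0⟩ := dup_height hD
  induction n with
  | zero =>
    refine ⟨0, le_rfl, fun x _ i hi => ?_⟩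
    obtain rfl : i = 0 := by omega
    simp [it]
  | succ n ih =>
    obtain ⟨B, hB, h⟩ := ih
    refine ⟨4 * B + B0, by positivity, fun x hx i hi => ?_⟩
    have h1 := h x (hx.mono (Nat.le_succ n))
    rcases Nat.lt_or_ge i (n + 1) with hlt | hge
    · exact (h1 i (by omega)).trans (by linarith)
    · obtain rfl : i = n + 1 := by omega
      have h2 := h1 n le_rfl
      have h3 := (h0 (it a b c x n)).2 (hx n (Nat.lt_succ_self n))
      have e : it a b c x (n + 1) = dd a b c (it a b c x n) := rfl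
      rw [e]
      rw [abs_le] at h2 h3 ⊢
      rw [pow_succ]
      constructor <;> nlinarith [h2.1, h2.2, h3.1, h3.2]

/-- almost all points are good -/
lemma finite_not_good {a b c : K} (hD : dsc a b c ≠ 0) (n : ℕ) : {x : K | ¬ Good a b c x n}.Finite := by
  obtain ⟨B0, hB0, h0⟩ := dup_height hD
  induction n with
  | zero =>
    refine Set.Finite.subset Set.finite_empty fun x hx => ?_
    exact hx (fun i hi => absurd hi (Nat.not_lt_zero i))
  | succ n ih =>
    obtain ⟨B, hB, h⟩ := it_height hD n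
    refine (ih.union (NumberField.finite_setOfPred_logHeight₁_le K (B0 + B))).subset ?_
    intro x hx
    by_cases hg : Good a b c x n
    · right
      have h1 : ∃ i < n + 1, dD a b c (it a b c x i) = 0 := by
        by_contra hc
        push Not at hc
        exact hx hc
      obtain ⟨i, hi, hi0⟩ := h1
      have h2 := (h0 _).1 hi0
      have h3 := h x hg i (by omega)
      have h4 : (0 : ℝ) ≤ logHeight₁ x := by
        rw [logHeight₁_eq_logHeight]
        exact logHeight_nonneg _
      have h5 : (1 : ℝ) ≤ 4 ^ i := one_le_pow₀ (by norm_num)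
      rw [abs_le] at h3
      show logHeight₁ x ≤ B0 + B
      nlinarith [h3.1, h3.2]
    · left
      exact hg

end Pool.Agent.Helper892.VE
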