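import Pool.Agent.Helper892.VE.Pts

/-!
Newton's method: values of a polynomial with a large square factor.
-/

set_option autoImplicit false

open NumberField Module Polynomial Height

namespace Pool.Agent.Helper892.VE

variable {k : Type} [Field k] [NumberField k]

/-- `(z - w) ^ i` modulo `w ^ 2` -/
lemma pow_sub_mod {R : Type} [CommRing R] (z w : R) (i : ℕ) :
    w ^ 2 ∣ (z - w) ^ i - (z ^ i - i * z ^ (i - 1) * w) := by
  induction i with
  | zero => simp
  | succ i ih =>
    obtain ⟨r, hr⟩ := ih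
    refine ⟨(z - w) * r + i * z ^ (i - 1), ?_⟩
    have e1 : (z - w) ^ (i + 1) = (z - w) * (z ^ i - i * z ^ (i - 1) * w + w ^ 2 * r) := by
      rw [pow_succ]
      linear_combination (z - w) * hr
    rw [e1]
    have e2 : (i : R) * z ^ i = i * z ^ (i - 1) * z := by
      rcases Nat.eq_zero_or_pos i with h | h
      · simp [h]
      · obtain ⟨j, rfl⟩ : ∃ j, i = j + 1 := ⟨i - 1, by omega⟩
        rw [Nat.add_sub_cancel, pow_succ]
        ring
    push_cast
    linear_combination w * e2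

/-- The Newton step gives a value which is divisible by the square of the old one. -/
lemma newton_dvd (g : (𝓞 k)[X]) (e : ℕ) (he : g.natDegree ≤ e) (he1 : 1 ≤ e) (t : 𝓞 k) :
    g.eval t ^ 2 ∣ frm g e (t * g.derivative.eval t - g.eval t) (g.derivative.eval t) := by
  set w := g.eval t with hw
  set b := g.derivative.eval t with hb
  have h1 : ∀ i ∈ Finset.range (e + 1), w ^ 2 ∣ g.coeff i * (t * b - w) ^ i * b ^ (e - i) -
      g.coeff i * ((t * b) ^ i - i * (t * b) ^ (i - 1) * w) * b ^ (e - i) := by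
    intro i _
    have h2 := pow_sub_mod (t * b) w i
    have e1 : g.coeff i * (t * b - w) ^ i * b ^ (e - i) -
      g.coeff i * ((t * b) ^ i - i * (t * b) ^ (i - 1) * w) * b ^ (e - i) =
      ((t * b - w) ^ i - ((t * b) ^ i - i * (t * b) ^ (i - 1) * w)) * (g.coeff i * b ^ (e - i)) := by
      ring
    rw [e1]
    exact h2.mul_right _
  have h2 := Finset.dvd_sum h1
  rw [Finset.sum_sub_distrib] at h2
  have h3 : ∑ i ∈ Finset.range (e + 1),
      g.coeff i * ((t * b) ^ i - i * (t * b) ^ (i - 1) * w) * b ^ (e - i) = 0 := by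
    have e1 : ∀ i ∈ Finset.range (e + 1),
        g.coeff i * ((t * b) ^ i - i * (t * b) ^ (i - 1) * w) * b ^ (e - i) =
        b ^ e * (g.coeff i * t ^ i) - b ^ (e - 1) * w * (g.coeff i * i * t ^ (i - 1)) := by
      intro i hi
      rw [Finset.mem_range] at hi
      rcases Nat.eq_zero_or_pos i with h | h
      · subst h
        simp
        ring
      · obtain ⟨j, rfl⟩ : ∃ j, i = j + 1 := ⟨i - 1, by omega⟩
        obtain ⟨l, hl⟩ : ∃ l, e = j + 1 + l := ⟨e - (j + 1), by omega⟩
        have h4 : e - (j + 1) = l := by omega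
        have h5 : e - 1 = j + l := by omega
        rw [h4, h5, hl, Nat.add_sub_cancel]
        ring
    rw [Finset.sum_congr rfl e1, Finset.sum_sub_distrib, ← Finset.mul_sum, ← Finset.mul_sum]
    have e2 : ∑ i ∈ Finset.range (e + 1), g.coeff i * t ^ i = w := by
      rw [hw, eval_eq_sum_range' (Nat.lt_succ_of_le he)]
    have e3 : ∑ i ∈ Finset.range (e + 1), g.coeff i * i * t ^ (i - 1) = b := by
      rw [hb, derivative_eval, sum_over_range' g _ (e + 1) (Nat.lt_succ_of_le he)]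
      intro n
      simp
    rw [e2, e3]
    obtain ⟨l, rfl⟩ : ∃ l, e = l + 1 := ⟨e - 1, by omega⟩
    rw [Nat.add_sub_cancel, pow_succ]
    ring
  rw [h3, sub_zero] at h2
  exact h2

lemma v_nat (v : InfinitePlace k) (n : ℕ) : v (n : k) = n := by
  rw [← InfinitePlace.norm_embedding_eq, map_natCast, Complex.norm_natCast]

lemma eval_coe (g : (𝓞 k)[X]) (n : ℕ) (d : ℕ) (hd : g.natDegree ≤ d) :
    ((g.eval (n : 𝓞 k) : 𝓞 k) : k) = ∑ i ∈ Finset.range (d + 1), (g.coeff i : k) * (n : k) ^ i := by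
  rw [eval_eq_sum_range' (Nat.lt_succ_of_le hd)]
  change algebraMap (𝓞 k) k _ = _
  rw [map_sum]
  refine Finset.sum_congr rfl fun i _ => ?_
  rw [map_mul, map_pow, map_natCast]

/-- upper bounds for the values of a polynomial at integers -/
lemma eval_upper (v : InfinitePlace k) (g : (𝓞 k)[X]) (d : ℕ) (hd : g.natDegree ≤ d) :
    ∃ c : ℝ, 0 < c ∧ ∀ n : ℕ, 1 ≤ n → v ((g.eval (n : 𝓞 k) : 𝓞 k) : k) ≤ c * (n : ℝ) ^ d := by
  refine ⟨∑ i ∈ Finset.range (d + 1), v (g.coeff i : k) + 1, by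
    have : 0 ≤ ∑ i ∈ Finset.range (d + 1), v (g.coeff i : k) :=
      Finset.sum_nonneg fun i _ => apply_nonneg v _
    linarith, fun n hn => ?_⟩
  have hn1 : (1 : ℝ) ≤ n := by exact_mod_cast hn
  rw [eval_coe g n d hd]
  refine (v.1.sum_le _ _).trans ?_
  have h1 : ∑ i ∈ Finset.range (d + 1), v.1 ((g.coeff i : k) * (n : k) ^ i) ≤
      (∑ i ∈ Finset.range (d + 1), v (g.coeff i : k)) * (n : ℝ) ^ d := by
    rw [Finset.sum_mul]
    refine Finset.sum_le_sum fun i hi => ?_
    have hi' : i ≤ d := by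
      rw [Finset.mem_range] at hi
      omega
    change v ((g.coeff i : k) * (n : k) ^ i) ≤ _
    rw [map_mul, map_pow, v_nat]
    exact mul_le_mul_of_nonneg_left (pow_le_pow_right₀ hn1 hi') (apply_nonneg v _)
  refine h1.trans ?_
  have : (0 : ℝ) ≤ (n : ℝ) ^ d := by positivity
  nlinarith

/-- lower bounds for the values of a polynomial at integers -/
lemma eval_lower (v : InfinitePlace k) (g : (𝓞 k)[X]) (hg : g ≠ 0) : ∃ c : ℝ, 0 < c ∧
    ∃ N : ℕ, ∀ n : ℕ, N ≤ n → c * (n : ℝ) ^ g.natDegree ≤ v ((g.eval (n : 𝓞 k) : 𝓞 k) : k) := by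
  set d := g.natDegree with hd
  have hlc : 0 < v (g.coeff d : k) := by
    rw [v.pos_iff]
    exact RingOfIntegers.coe_ne_zero_iff.2 (leadingCoeff_ne_zero.2 hg)
  set S : ℝ := ∑ i ∈ Finset.range d, v (g.coeff i : k) with hS
  have hS0 : 0 ≤ S := Finset.sum_nonneg fun i _ => apply_nonneg v _
  obtain ⟨N, hN⟩ := exists_nat_gt (2 * S / v (g.coeff d : k) + 1)
  refine ⟨v (g.coeff d : k) / 2, by linarith, N, fun n hn => ?_⟩
  have hnN : (N : ℝ) ≤ n := by exact_mod_cast hn
  have hn0 : 2 * S / v (g.coeff d : k) + 1 < n := hN.trans_le hnN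
  have hq : 0 ≤ 2 * S / v (g.coeff d : k) := by positivity
  have hn1 : (1 : ℝ) ≤ n := by linarith
  rw [eval_coe g n d le_rfl, Finset.sum_range_succ]
  have h1 : v (∑ i ∈ Finset.range d, (g.coeff i : k) * (n : k) ^ i) * n ≤ S * (n : ℝ) ^ d := by
    have h2 : v (∑ i ∈ Finset.range d, (g.coeff i : k) * (n : k) ^ i) ≤
        ∑ i ∈ Finset.range d, v ((g.coeff i : k) * (n : k) ^ i) := v.1.sum_le _ _
    refine (mul_le_mul_of_nonneg_right h2 (by linarith)).trans ?_
    rw [Finset.sum_mul, hS, Finset.sum_mul]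
    refine Finset.sum_le_sum fun i hi => ?_
    have hi' : i < d := Finset.mem_range.1 hi
    rw [map_mul, map_pow, v_nat, mul_assoc, ← pow_succ]
    exact mul_le_mul_of_nonneg_left (pow_le_pow_right₀ hn1 hi') (apply_nonneg v _)
  have h3 : v ((g.coeff d : k) * (n : k) ^ d) = v (g.coeff d : k) * (n : ℝ) ^ d := by
    rw [map_mul, map_pow, v_nat]
  have h4 : v ((g.coeff d : k) * (n : k) ^ d) ≤
      v (∑ i ∈ Finset.range d, (g.coeff i : k) * (n : k) ^ i + (g.coeff d : k) * (n : k) ^ d) +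
        v (∑ i ∈ Finset.range d, (g.coeff i : k) * (n : k) ^ i) := by
    have h5 := v.1.sub_le_add (∑ i ∈ Finset.range d, (g.coeff i : k) * (n : k) ^ i +
      (g.coeff d : k) * (n : k) ^ d) (∑ i ∈ Finset.range d, (g.coeff i : k) * (n : k) ^ i)
    rw [add_sub_cancel_left] at h5
    exact h5
  rw [h3] at h4
  have hpow : (0 : ℝ) < (n : ℝ) ^ d := by positivity
  have h6 : S ≤ v (g.coeff d : k) / 2 * n := by
    have : 2 * S < n * v (g.coeff d : k) := by
      rw [← div_lt_iff₀ hlc]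
      linarith
    linarith
  have h7 : v (∑ i ∈ Finset.range d, (g.coeff i : k) * (n : k) ^ i) ≤
      v (g.coeff d : k) / 2 * (n : ℝ) ^ d := by
    have h8 : v (∑ i ∈ Finset.range d, (g.coeff i : k) * (n : k) ^ i) * n ≤
        v (g.coeff d : k) / 2 * (n : ℝ) ^ d * n := by
      refine h1.trans ((mul_le_mul_of_nonneg_right h6 hpow.le).trans (le_of_eq (by ring)))
    exact le_of_mul_le_mul_right h8 (by linarith)
  linarith

end Pool.Agent.Helper892.VE
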