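import Pool.Agent.Helper892.VE.Newton

/-!
Newton's method: infinitely many `x` for which `g(x)` has a large square factor.
-/

set_option autoImplicit false

open NumberField Module Polynomial Height

namespace Pool.Agent.Helper892.VE

variable {k : Type} [Field k] [NumberField k]

/-- the resultant of `g` and `g'` -/
lemma exists_res (g : (𝓞 k)[X])
    (hsep : IsCoprime (g.map (algebraMap (𝓞 k) k)) (derivative (g.map (algebraMap (𝓞 k) k)))) :
    ∃ (R : 𝓞 k) (U V : (𝓞 k)[X]), R ≠ 0 ∧ U * g + V * derivative g = C R := by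
  obtain ⟨u, v, huv⟩ := hsep
  obtain ⟨b, hbm, hb⟩ := IsLocalization.integerNormalization_spec (nonZeroDivisors (𝓞 k)) u
  obtain ⟨d, hdm, hd⟩ := IsLocalization.integerNormalization_spec (nonZeroDivisors (𝓞 k)) v
  set U := IsLocalization.integerNormalization (nonZeroDivisors (𝓞 k)) u with hU
  set V := IsLocalization.integerNormalization (nonZeroDivisors (𝓞 k)) v with hV
  have hbd : ((b : 𝓞 k) * (d : 𝓞 k)) ≠ 0 := mul_ne_zero (nonZeroDivisors.ne_zero hbm)
    (nonZeroDivisors.ne_zero hdm)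
  refine ⟨(b : 𝓞 k) * d, C (d : 𝓞 k) * U, C (b : 𝓞 k) * V, hbd, ?_⟩
  apply Polynomial.map_injective (algebraMap (𝓞 k) k) (IsFractionRing.injective (𝓞 k) k)
  have e1 : U.map (algebraMap (𝓞 k) k) = C (algebraMap (𝓞 k) k b) * u := by
    rw [hb, algebra_compatible_smul k (b : 𝓞 k) u, smul_eq_C_mul]
  have e2 : V.map (algebraMap (𝓞 k) k) = C (algebraMap (𝓞 k) k d) * v := by
    rw [hd, algebra_compatible_smul k (d : 𝓞 k) v, smul_eq_C_mul]
  rw [Polynomial.map_add, Polynomial.map_mul, Polynomial.map_mul, Polynomial.map_mul,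
    Polynomial.map_mul, map_C, map_C, map_C, e1, e2, ← derivative_map, map_mul, C_mul]
  linear_combination (C (algebraMap (𝓞 k) k b) * C (algebraMap (𝓞 k) k d)) * huv

lemma arch_pos (p q : 𝓞 k) (hq : q ≠ 0) : 0 < arch p q := by
  refine Finset.prod_pos fun v _ => pow_pos ?_ _
  have hbdd : BddAbove (Set.range fun i => v ((![p, q] i : 𝓞 k) : k)) :=
    (Set.finite_range _).bddAbove
  have h1 : v (q : k) ≤ ⨆ i, v ((![p, q] i : 𝓞 k) : k) :=
    le_ciSup (f := fun i => v ((![p, q] i : 𝓞 k) : k)) hbdd 1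
  exact (v.pos_iff.2 (RingOfIntegers.coe_ne_zero_iff.2 hq)).trans_le h1

/-- the height of a fraction and its content -/
lemma arch_le (p q R : 𝓞 k) (hq : q ≠ 0) (hR : R ≠ 0) (h : R ∈ Ideal.span {p, q}) (x : k)
    (hx : x * q = p) : arch p q ≤ |(Algebra.norm ℚ (R : k) : ℝ)| * mulHeight₁ x := by
  have hy0 : (![p, q] : Fin 2 → 𝓞 k) ≠ 0 := fun h2 => hq (congrFun h2 1)
  have e1 := Pool.Agent.R405.mulHeight_int ![p, q] hy0
  have hqk : (q : k) ≠ 0 := RingOfIntegers.coe_ne_zero_iff.2 hq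
  have e2 : (fun j => ((![p, q] j : 𝓞 k) : k)) = (q : k) • ![x, 1] := by
    funext j
    fin_cases j
    · simp [← hx, mul_comm]
    · simp
  rw [e2, mulHeight_smul_eq_mulHeight _ hqk, ← mulHeight₁_eq_mulHeight] at e1
  have e3 : Set.range ![p, q] = {p, q} := by
    ext z
    simp only [Set.mem_range, Fin.exists_fin_two, Matrix.cons_val_zero, Matrix.cons_val_one,
      Set.mem_insert_iff, Set.mem_singleton_iff]
    exact or_congr ⟨Eq.symm, Eq.symm⟩ ⟨Eq.symm, Eq.symm⟩
  rw [e3] at e1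
  have h1 : Ideal.absNorm (Ideal.span {p, q}) ∣ Ideal.absNorm (Ideal.span {R}) :=
    Ideal.absNorm_dvd_absNorm_of_le ((Ideal.span_singleton_le_iff_mem _).2 h)
  have h2 : Ideal.absNorm (Ideal.span {R}) ≠ 0 := by
    rw [Ne, Ideal.absNorm_eq_zero_iff, Ideal.span_singleton_eq_bot]
    exact hR
  have h3 : (Ideal.absNorm (Ideal.span {p, q}) : ℝ) ≤ Ideal.absNorm (Ideal.span {R}) := by
    exact_mod_cast Nat.le_of_dvd (Nat.pos_of_ne_zero h2) h1
  have h5 : ((Ideal.absNorm (Ideal.span {R}) : ℕ) : ℝ) = |(Algebra.norm ℚ (R : k) : ℝ)| := by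
    rw [Ideal.absNorm_span_singleton, Nat.cast_natAbs]
    have : (Algebra.norm ℚ (R : k)) = ((Algebra.norm ℤ R : ℤ) : ℚ) := by
      rw [Algebra.coe_norm_int]
    rw [this]
    push_cast
    rfl
  rw [h5] at h3
  have e4 : arch p q = ∏ v : InfinitePlace k, (⨆ i, v ((![p, q] i : 𝓞 k) : k)) ^ v.mult := rfl
  rw [e4, ← e1, mul_comm]
  exact mul_le_mul_of_nonneg_right h3 (mulHeight₁_pos x).le

theorem newton_pts (g : (𝓞 k)[X]) (m : ℕ) (hm : 1 ≤ m) (hg : g.natDegree = 2 * m)
    (hsep : IsCoprime (g.map (algebraMap (𝓞 k) k)) (derivative (g.map (algebraMap (𝓞 k) k)))) :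
    ∃ C₀ : ℝ, {x : k | ∃ (A : 𝓞 k) (s : k), s ≠ 0 ∧ A ≠ 0 ∧ (A : k) = s ^ 2 * aeval x g ∧
      Real.log |(Algebra.norm ℚ (A : k) : ℝ)| ≤ (2 * m - 2) * logHeight₁ x + C₀}.Infinite := by
  classical
  have hg0 : g ≠ 0 := by
    rintro rfl
    simp at hg
    omega
  set g' := derivative g with hg'
  have hg'deg : g'.natDegree ≤ 2 * m := by
    rw [← hg]
    exact (natDegree_derivative_le g).trans (Nat.sub_le _ _)
  have hg'0 : g' ≠ 0 := by
    intro h
    have := derivative_eq_zero.1 h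
    omega
  obtain ⟨R, U, V, hR, hUV⟩ := exists_res g hsep
  obtain ⟨C1, hC1, hfrm⟩ := norm_frm k g (2 * m)
  -- the archimedean bounds
  set P : (𝓞 k)[X] := X * g' - g with hP
  have hPdeg : P.natDegree ≤ 2 * m := by
    refine (natDegree_sub_le _ _).trans (max_le (natDegree_mul_le.trans ?_) (by omega))
    rw [natDegree_X]
    have : g'.natDegree ≤ g.natDegree - 1 := natDegree_derivative_le g
    omega
  choose cP hcP hPu using fun v : InfinitePlace k => eval_upper v P (2 * m) hPdeg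
  choose cQ hcQ hQu using fun v : InfinitePlace k => eval_upper v g' (2 * m) hg'deg
  choose cG hcG NG hGl using fun v : InfinitePlace k => eval_lower v g hg0
  choose cH hcH NH hHl using fun v : InfinitePlace k => eval_lower v g' hg'0
  set N0 : ℕ := ∑ v : InfinitePlace k, (NG v + NH v) + 1 with hN0
  have hNv : ∀ v : InfinitePlace k, NG v ≤ N0 ∧ NH v ≤ N0 := by
    intro v
    have : NG v + NH v ≤ ∑ v : InfinitePlace k, (NG v + NH v) :=
      Finset.single_le_sum (f := fun v => NG v + NH v) (fun i _ => Nat.zero_le _)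
        (Finset.mem_univ v)
    omega
  set D : ℝ := ∏ v : InfinitePlace k, ((cP v + cQ v) / cG v) ^ v.mult with hD
  have hDpos : 0 < D := Finset.prod_pos fun v _ => pow_pos
    (div_pos (add_pos (hcP v) (hcQ v)) (hcG v)) _
  set NR : ℝ := |(Algebra.norm ℚ (R : k) : ℝ)| with hNR
  have hNRpos : 0 < NR := by
    rw [hNR, abs_pos]
    have : Algebra.norm ℚ (R : k) ≠ 0 := by
      rw [Algebra.norm_ne_zero_iff]
      exact RingOfIntegers.coe_ne_zero_iff.2 hR
    exact_mod_cast this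
  -- the values at a large integer
  have hv0 : Nonempty (InfinitePlace k) := inferInstance
  have hw : ∀ n : ℕ, N0 ≤ n → g.eval (n : 𝓞 k) ≠ 0 ∧ g'.eval (n : 𝓞 k) ≠ 0 := by
    intro n hn
    have hn1 : (1 : ℝ) ≤ n := by
      have : 1 ≤ n := by omega
      exact_mod_cast this
    obtain ⟨v⟩ := hv0
    have h1 := hGl v n ((hNv v).1.trans hn)
    have h2 := hHl v n ((hNv v).2.trans hn)
    have h3 : 0 < cG v * (n : ℝ) ^ g.natDegree := mul_pos (hcG v) (by positivity)
    have h4 : 0 < cH v * (n : ℝ) ^ g'.natDegree := mul_pos (hcH v) (by positivity)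
    constructor
    · apply ne_of_coe
      rw [← v.pos_iff]
      linarith
    · apply ne_of_coe
      rw [← v.pos_iff]
      linarith
  have harch : ∀ n : ℕ, N0 ≤ n → arch (P.eval (n : 𝓞 k)) (g'.eval (n : 𝓞 k)) ≤
      D * |(Algebra.norm ℚ ((g.eval (n : 𝓞 k) : 𝓞 k) : k) : ℝ)| := by
    intro n hn
    have hn1' : 1 ≤ n := by omega
    have h2 : |(Algebra.norm ℚ ((g.eval (n : 𝓞 k) : 𝓞 k) : k) : ℝ)| =
        ∏ v : InfinitePlace k, v ((g.eval (n : 𝓞 k) : 𝓞 k) : k) ^ v.mult := by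
      rw [InfinitePlace.prod_eq_abs_norm]
      push_cast
      rfl
    rw [h2, arch, hD, ← Finset.prod_mul_distrib]
    refine Finset.prod_le_prod (fun v _ => pow_nonneg (Real.iSup_nonneg fun i => apply_nonneg v _) _)
      fun v _ => ?_
    rw [← mul_pow]
    refine pow_le_pow_left₀ (Real.iSup_nonneg fun i => apply_nonneg v _) ?_ _
    have h3 := hGl v n ((hNv v).1.trans hn)
    rw [hg] at h3
    have h4 : (cP v + cQ v) * (n : ℝ) ^ (2 * m) ≤
        (cP v + cQ v) / cG v * v ((g.eval (n : 𝓞 k) : 𝓞 k) : k) := by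
      have h5 := mul_le_mul_of_nonneg_left h3 (div_pos (add_pos (hcP v) (hcQ v)) (hcG v)).le
      refine le_trans (le_of_eq ?_) h5
      have := (hcG v).ne'
      field_simp
    refine le_trans (ciSup_le fun i => ?_) h4
    have hpn : (0 : ℝ) ≤ (n : ℝ) ^ (2 * m) := by positivity
    fin_cases i
    · refine (hPu v n hn1').trans ?_
      nlinarith [(hcQ v).le]
    · refine (hQu v n hn1').trans ?_
      nlinarith [(hcP v).le]
  have hPeval : ∀ n : ℕ, P.eval (n : 𝓞 k) = n * g'.eval (n : 𝓞 k) - g.eval (n : 𝓞 k) := by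
    intro n
    rw [hP, eval_sub, eval_mul, eval_X]
  refine ⟨Real.log (C1 * D ^ 2 + 1) + (2 * m - 2 : ℕ) * Real.log NR, ?_⟩
  -- membership
  have hmem : ∀ (n : ℕ) (x : k), N0 ≤ n → x * (g'.eval (n : 𝓞 k) : 𝓞 k) = (P.eval (n : 𝓞 k) : 𝓞 k) →
      aeval x g ≠ 0 → x ∈ {x : k | ∃ (A : 𝓞 k) (s : k), s ≠ 0 ∧ A ≠ 0 ∧
        (A : k) = s ^ 2 * aeval x g ∧ Real.log |(Algebra.norm ℚ (A : k) : ℝ)| ≤
          (2 * m - 2) * logHeight₁ x + (Real.log (C1 * D ^ 2 + 1) +
            (2 * m - 2 : ℕ) * Real.log NR)} := by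
    intro n x hn hx hgx
    obtain ⟨hw0, hb0⟩ := hw n hn
    set w := g.eval (n : 𝓞 k) with hwdef
    set b := g'.eval (n : 𝓞 k) with hbdef
    have hwk : (w : k) ≠ 0 := RingOfIntegers.coe_ne_zero_iff.2 hw0
    have hbk : (b : k) ≠ 0 := RingOfIntegers.coe_ne_zero_iff.2 hb0
    obtain ⟨A, hA⟩ := newton_dvd g (2 * m) hg.le (by omega) (n : 𝓞 k)
    rw [← hPeval n] at hA
    have e1 := frm_eq k hg.le hx
    rw [← hwdef] at hA
    have hAk : (w : k) ^ 2 * (A : k) = (b : k) ^ (2 * m) * aeval x g := by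
      rw [← e1, hA]
      rfl
    have hA0 : A ≠ 0 := by
      rintro rfl
      have : (b : k) ^ (2 * m) * aeval x g = 0 := by
        rw [← hAk]
        simp
      exact mul_ne_zero (pow_ne_zero _ hbk) hgx this
    refine ⟨A, (b : k) ^ m / w, div_ne_zero (pow_ne_zero _ hbk) hwk, hA0, ?_, ?_⟩
    · rw [div_pow, ← pow_mul, mul_comm m 2]
      field_simp
      rw [mul_comm] at hAk
      linear_combination hAk
    · have h1 := hfrm (P.eval (n : 𝓞 k)) b
      rw [hA] at h1
      have e2 : (((w ^ 2 * A : 𝓞 k) : 𝓞 k) : k) = (w : k) ^ 2 * (A : k) := rfl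
      rw [e2, map_mul, map_pow] at h1
      push_cast at h1
      rw [abs_mul, abs_pow] at h1
      set nw : ℝ := |(Algebra.norm ℚ (w : k) : ℝ)| with hnw
      set nA : ℝ := |(Algebra.norm ℚ (A : k) : ℝ)| with hnA
      set a := arch (P.eval (n : 𝓞 k)) b with ha
      have ha0 : 0 < a := arch_pos _ _ hb0
      have hnw0 : 0 < nw := by
        rw [hnw, abs_pos]
        have : Algebra.norm ℚ (w : k) ≠ 0 := by
          rw [Algebra.norm_ne_zero_iff]
          exact hwk
        exact_mod_cast this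
      have hnA0 : 0 < nA := by
        rw [hnA, abs_pos]
        have : Algebra.norm ℚ (A : k) ≠ 0 := by
          rw [Algebra.norm_ne_zero_iff]
          exact RingOfIntegers.coe_ne_zero_iff.2 hA0
        exact_mod_cast this
      have h2 : a ≤ D * nw := harch n hn
      have h3 : nA ≤ C1 * D ^ 2 * a ^ (2 * m - 2) := by
        have h4 : nw ^ 2 * nA ≤ nw ^ 2 * (C1 * D ^ 2 * a ^ (2 * m - 2)) := by
          refine h1.trans ?_
          have e3 : a ^ (2 * m) = a ^ (2 * m - 2) * a ^ 2 := by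
            rw [← pow_add]
            congr 1
            omega
          rw [e3]
          have h5 : a ^ 2 ≤ (D * nw) ^ 2 := pow_le_pow_left₀ ha0.le h2 2
          have h6 : 0 ≤ C1 * a ^ (2 * m - 2) := mul_nonneg hC1 (pow_nonneg ha0.le _)
          calc C1 * (a ^ (2 * m - 2) * a ^ 2) = (C1 * a ^ (2 * m - 2)) * a ^ 2 := by ring
            _ ≤ (C1 * a ^ (2 * m - 2)) * (D * nw) ^ 2 := mul_le_mul_of_nonneg_left h5 h6
            _ = nw ^ 2 * (C1 * D ^ 2 * a ^ (2 * m - 2)) := by ring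
        exact le_of_mul_le_mul_left h4 (by positivity)
      have h4 : a ≤ NR * mulHeight₁ x := by
        refine arch_le _ _ R hb0 hR ?_ x hx
        have e4 : R = (U.eval (n : 𝓞 k)) * w + (V.eval (n : 𝓞 k)) * b := by
          have := congrArg (fun p => eval (n : 𝓞 k) p) hUV
          simp only [eval_add, eval_mul, eval_C] at this
          exact this.symm
        rw [e4, Ideal.mem_span_pair]
        refine ⟨-(U.eval (n : 𝓞 k)), U.eval (n : 𝓞 k) * n + V.eval (n : 𝓞 k), ?_⟩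
        rw [hPeval n]
        ring
      have h5 : nA ≤ (C1 * D ^ 2 + 1) * (NR * mulHeight₁ x) ^ (2 * m - 2) := by
        refine h3.trans (mul_le_mul (by linarith) (pow_le_pow_left₀ ha0.le h4 _)
          (pow_nonneg ha0.le _) (by positivity))
      have h6 := Real.log_le_log hnA0 h5
      have hH := mulHeight₁_pos x
      rw [Real.log_mul (by positivity) (by positivity), Real.log_pow,
        Real.log_mul hNRpos.ne' hH.ne'] at h6
      have e5 : ((2 * m - 2 : ℕ) : ℝ) = 2 * m - 2 := by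
        rw [Nat.cast_sub (by omega)]
        push_cast
        ring
      rw [logHeight₁_eq_log_mulHeight₁, ← e5]
      linarith
  -- infinitely many
  intro hfin
  set S := {x : k | ∃ (A : 𝓞 k) (s : k), s ≠ 0 ∧ A ≠ 0 ∧
        (A : k) = s ^ 2 * aeval x g ∧ Real.log |(Algebra.norm ℚ (A : k) : ℝ)| ≤
          (2 * m - 2) * logHeight₁ x + (Real.log (C1 * D ^ 2 + 1) +
            (2 * m - 2 : ℕ) * Real.log NR)} with hS
  have hgmap : g.map (algebraMap (𝓞 k) k) ≠ 0 := by
    intro h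
    exact hg0 ((Polynomial.map_eq_zero_iff (IsFractionRing.injective (𝓞 k) k)).1 h)
  have hroots : {x : k | aeval x g = 0}.Finite := by
    refine ((g.map (algebraMap (𝓞 k) k)).roots.toFinset.finite_toSet).subset ?_
    intro x hx
    rw [Finset.mem_coe, Multiset.mem_toFinset, mem_roots hgmap, IsRoot.def, eval_map_algebraMap]
    exact hx
  have hfib : ∀ τ : k, {n : ℕ | τ * (g'.eval (n : 𝓞 k) : 𝓞 k) = (P.eval (n : 𝓞 k) : 𝓞 k)}.Finite := by
    intro τ
    set Q : k[X] := P.map (algebraMap (𝓞 k) k) - C τ * g'.map (algebraMap (𝓞 k) k) with hQ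
    have hQ0 : Q ≠ 0 := by
      intro h
      have h1 : Q.coeff (2 * m) = 0 := by rw [h, coeff_zero]
      obtain ⟨l, hl⟩ : ∃ l, 2 * m = l + 1 := ⟨2 * m - 1, by omega⟩
      have h2 : P.coeff (2 * m) = (2 * m - 1 : ℕ) * g.coeff (2 * m) := by
        rw [hP, coeff_sub, hl, coeff_X_mul, hg', coeff_derivative, ← hl]
        have : ((2 * m - 1 : ℕ) : 𝓞 k) = (l : 𝓞 k) := by
          congr 1
          omega
        rw [this]
        ring
      have h3 : g'.coeff (2 * m) = 0 := by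
        rw [hg', coeff_derivative, coeff_eq_zero_of_natDegree_lt (by omega), zero_mul]
      rw [hQ, coeff_sub, coeff_map, coeff_C_mul, coeff_map, h3, map_zero, mul_zero, sub_zero,
        h2, map_mul, map_natCast] at h1
      rcases mul_eq_zero.1 h1 with h4 | h4
      · have : (2 * m - 1 : ℕ) = 0 := by exact_mod_cast h4
        omega
      · have h5 : g.coeff (2 * m) = 0 := by
          exact (map_eq_zero_iff _ (IsFractionRing.injective (𝓞 k) k)).1 h4
        rw [← hg] at h5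
        exact hg0 (leadingCoeff_eq_zero.1 h5)
    have hfinQ : {n : ℕ | Q.eval (n : k) = 0}.Finite := by
      have h1 : {x : k | Q.eval x = 0}.Finite := by
        refine (Q.roots.toFinset.finite_toSet).subset ?_
        intro x hx
        rw [Finset.mem_coe, Multiset.mem_toFinset, mem_roots hQ0]
        exact hx
      exact h1.preimage (Nat.cast_injective.injOn)
    refine hfinQ.subset ?_
    intro n hn
    show Q.eval (n : k) = 0
    have hcast : ∀ q : (𝓞 k)[X], (q.map (algebraMap (𝓞 k) k)).eval (n : k) =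
        ((q.eval (n : 𝓞 k) : 𝓞 k) : k) := by
      intro q
      have : (n : k) = algebraMap (𝓞 k) k (n : 𝓞 k) := by rw [map_natCast]
      rw [this, eval_map_apply]
    rw [hQ, eval_sub, eval_mul, eval_C, hcast, hcast, sub_eq_zero]
    exact hn.symm
  have hcover : Set.Ici N0 ⊆ ⋃ τ ∈ S ∪ {x : k | aeval x g = 0},
      {n : ℕ | τ * (g'.eval (n : 𝓞 k) : 𝓞 k) = (P.eval (n : 𝓞 k) : 𝓞 k)} := by
    intro n hn
    have hn' : N0 ≤ n := hn
    obtain ⟨-, hb0⟩ := hw n hn'
    have hbk : ((g'.eval (n : 𝓞 k) : 𝓞 k) : k) ≠ 0 := RingOfIntegers.coe_ne_zero_iff.2 hb0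
    set x : k := (P.eval (n : 𝓞 k) : 𝓞 k) / (g'.eval (n : 𝓞 k) : 𝓞 k) with hx
    have hx' : x * (g'.eval (n : 𝓞 k) : 𝓞 k) = (P.eval (n : 𝓞 k) : 𝓞 k) := by
      rw [hx]
      field_simp
    simp only [Set.mem_iUnion]
    by_cases hgx : aeval x g = 0
    · exact ⟨x, Or.inr hgx, hx'⟩
    · exact ⟨x, Or.inl (hmem n x hn' hx' hgx), hx'⟩
  exact Set.Ici_infinite N0 (((hfin.union hroots).biUnion fun τ _ => hfib τ).subset hcover)

end Pool.Agent.Helper892.VE
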