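import Pool.Agent.Helper892.VE.Pts

/-!
A squarefree cubic has discriminant different from zero.
-/

set_option autoImplicit false

open Polynomial

namespace Pool.Agent.Helper892.VE

open Pool.Agent.Y720.MZ

theorem dsc_ne_zero {K : Type} [Field K] [CharZero K] (a b c : K)
    (h : Squarefree (X ^ 3 + C a * X ^ 2 + C b * X + C c : K[X])) : dsc a b c ≠ 0 := by
  intro h0
  set f : K[X] := X ^ 3 + C a * X ^ 2 + C b * X + C c with hf
  have hsep : f.Separable := PerfectField.separable_iff_squarefree.2 h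
  have hder : derivative f = 3 * X ^ 2 + 2 * C a * X + C b := by
    rw [hf]
    simp only [derivative_add, derivative_mul, derivative_X_pow, derivative_C, derivative_X]
    simp only [Nat.cast_ofNat, zero_mul, zero_add, map_ofNat]
    norm_num
    ring
  have hco : IsCoprime f (derivative f) := hsep
  set B : K[X] := C (2 * a ^ 2 - 6 * b) * X ^ 2 + C (2 * a ^ 3 - 7 * a * b + 9 * c) * X +
    C (a ^ 2 * b + 3 * a * c - 4 * b ^ 2) with hB
  have e2 : (C (18 * b - 6 * a ^ 2) * X + C (15 * a * b - 4 * a ^ 3 - 27 * c)) * f +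
      B * derivative f = C (dsc a b c) := by
    rw [hder, hf, hB, dsc]
    simp only [C_mul, C_sub, C_pow, C_add, map_ofNat]
    ring
  rw [h0, C_0] at e2
  have hdvd : f ∣ B := by
    have h1 : f ∣ B * derivative f := by
      refine ⟨-(C (18 * b - 6 * a ^ 2) * X + C (15 * a * b - 4 * a ^ 3 - 27 * c)), ?_⟩
      linear_combination e2
    exact hco.dvd_of_dvd_mul_right h1
  have hfdeg : f.natDegree = 3 := by
    rw [hf]
    compute_degree!
  have hBdeg : B.natDegree ≤ 2 := by
    rw [hB]
    compute_degree!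
  have hB0 : B = 0 := by
    by_contra hne
    have := natDegree_le_of_dvd hdvd hne
    omega
  have k2 : ∀ p q r : K, (C p * X ^ 2 + C q * X + C r).coeff 2 = p := by
    intro p q r
    simp [coeff_X, coeff_C]
  have k1 : ∀ p q r : K, (C p * X ^ 2 + C q * X + C r).coeff 1 = q := by
    intro p q r
    simp [coeff_X, coeff_C]
  have c2 : 2 * a ^ 2 - 6 * b = 0 := by
    rw [← k2 (2 * a ^ 2 - 6 * b) (2 * a ^ 3 - 7 * a * b + 9 * c)
      (a ^ 2 * b + 3 * a * c - 4 * b ^ 2), ← hB, hB0, coeff_zero]
  have c1 : 2 * a ^ 3 - 7 * a * b + 9 * c = 0 := by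
    rw [← k1 (2 * a ^ 2 - 6 * b) (2 * a ^ 3 - 7 * a * b + 9 * c)
      (a ^ 2 * b + 3 * a * c - 4 * b ^ 2), ← hB, hB0, coeff_zero]
  have hb : b = a ^ 2 / 3 := by
    field_simp
    linear_combination -c2 / 2
  have hc : c = a ^ 3 / 27 := by
    rw [hb] at c1
    field_simp at c1 ⊢
    linear_combination c1 
  have r1 : f.eval (-a / 3) = 0 := by
    rw [hf]
    simp only [eval_add, eval_mul, eval_pow, eval_X, eval_C]
    rw [hb, hc]
    field_simp
    ring
  have r2 : (derivative f).eval (-a / 3) = 0 := by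
    rw [hder]
    simp only [eval_add, eval_mul, eval_pow, eval_X, eval_C, eval_ofNat]
    rw [hb]
    field_simp
    ring
  obtain ⟨u, v, huv⟩ := hco
  have := congrArg (fun p => p.eval (-a / 3)) huv
  simp only [eval_add, eval_mul, r1, r2, eval_one] at this
  simp at this

end Pool.Agent.Helper892.VE
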